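import Mathlib
import Pool.Agent.Run7.h988.DR.Tower

/-!
# Parities of multiplicities of the trivial character: counting lemmas
-/

set_option autoImplicit false
set_option linter.unusedSectionVars false

namespace Run7.h988.PY

open Pool.Agent.R389 Pool.Agent.H302R2 Pool.Agent.H302R3 Pool.Agent.H541R3.ART Pool.Agent.W446.AS Subgroup
open Run7.h988.DR

section even

/-- a sum of integers over a set with a permutation of `2`-power order -/
lemma even_sum {Ω : Type} [Fintype Ω] (f : Ω → Ω) (s : ℕ) (hf : f^[2 ^ s] = id)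
    (n : Ω → ℤ) (hfix : ∀ ω, f ω = ω → ∃ z : ℤ, n ω = 2 * z)
    (hn : ∀ ω, n (f ω) = n ω) : ∃ z : ℤ, ∑ ω, n ω = 2 * z := by
  classical
  have h1 : ((∑ ω, n ω : ℤ) : ZMod 2) = 0 := by
    push_cast
    have h2 : ∀ ω, ((n ω : ℤ) : ZMod 2) = if ((n ω : ℤ) : ZMod 2) ≠ 0 then 1 else 0 := by
      intro ω
      generalize ((n ω : ℤ) : ZMod 2) = t
      revert t
      decide
    rw [Finset.sum_congr rfl (fun ω _ => h2 ω), Finset.sum_ite, Finset.sum_const_zero, add_zero, Finset.sum_const,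
      nsmul_eq_mul, mul_one]
    let S : Type := {ω : Ω // ((n ω : ℤ) : ZMod 2) ≠ 0}
    let F : Function.End S := fun ω => ⟨f ω.1, by rw [hn]; exact ω.2⟩
    have hF : ∀ (m : ℕ) (ω : S), ((F ^ m : Function.End S) ω).1 = f^[m] ω.1 := by
      intro m
      induction m with
      | zero => intro ω; rfl
      | succ m ih =>
        intro ω
        rw [pow_succ, Function.iterate_succ]
        change ((F ^ m : Function.End S) (F ω)).1 = _
        rw [ih]
        rfl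
    have hF2 : F ^ 2 ^ s = 1 := by
      funext ω
      apply Subtype.ext
      rw [hF, hf]
      rfl
    have : Fact (Nat.Prime 2) := ⟨Nat.prime_two⟩
    have h3 := Equiv.Perm.card_fixedPoints_modEq (p := 2) hF2
    have h4 : Fintype.card F.fixedPoints = 0 := by
      rw [Fintype.card_eq_zero_iff]
      refine ⟨fun ω => ?_⟩
      have h5 : F ω.1 = ω.1 := ω.2
      obtain ⟨z, hz⟩ := hfix ω.1.1 (congrArg Subtype.val h5)
      apply ω.1.2
      rw [hz]
      exact (ZMod.intCast_zmod_eq_zero_iff_dvd _ 2).mpr ⟨z, by push_cast; rfl⟩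
    rw [h4] at h3
    have h5 : Fintype.card S = (Finset.univ.filter fun ω : Ω => ((n ω : ℤ) : ZMod 2) ≠ 0).card :=
      Fintype.card_subtype _
    rw [← h5]
    exact (ZMod.natCast_eq_zero_iff _ _).mpr ((Nat.modEq_zero_iff_dvd).mp h3)
  obtain ⟨z, hz⟩ := (ZMod.intCast_zmod_eq_zero_iff_dvd _ 2).mp h1
  exact ⟨z, by exact_mod_cast hz⟩

/-- a sum over a set with the action of a finite group, as a sum over the orbits -/
lemma sum_orbits {H X : Type} [Group H] [Fintype H] [MulAction H X] [Fintype X]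
    [Fintype (MulAction.orbitRel.Quotient H X)] (n : MulAction.orbitRel.Quotient H X → ℂ) :
    ∑ x : X, ((Nat.card (MulAction.orbit H x) : ℂ))⁻¹ * n (Quotient.mk'' x) = ∑ ω, n ω := by
  classical
  rw [← Finset.sum_fiberwise (s := Finset.univ) (g := fun x : X => (Quotient.mk'' x : MulAction.orbitRel.Quotient H X))]
  refine Finset.sum_congr rfl fun ω _ => ?_
  obtain ⟨x, rfl⟩ := Quotient.mk''_surjective ω
  have h1 : ∀ y ∈ Finset.univ.filter (fun y : X => (Quotient.mk'' y : MulAction.orbitRel.Quotient H X) = Quotient.mk'' x),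
      ((Nat.card (MulAction.orbit H y) : ℂ))⁻¹ * n (Quotient.mk'' y) =
        ((Nat.card (MulAction.orbit H x) : ℂ))⁻¹ * n (Quotient.mk'' x) := by
    intro y hy
    rw [Finset.mem_filter] at hy
    have h2 : y ∈ MulAction.orbit H x := by
      have h3 := Quotient.eq''.mp hy.2
      exact h3
    rw [hy.2, MulAction.orbit_eq_iff.mpr h2]
  rw [Finset.sum_congr rfl h1, Finset.sum_const, nsmul_eq_mul]
  have h2 : (Finset.univ.filter (fun y : X => (Quotient.mk'' y : MulAction.orbitRel.Quotient H X) = Quotient.mk'' x)).card =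
      Nat.card (MulAction.orbit H x) := by
    rw [← Fintype.card_subtype, ← Nat.card_eq_fintype_card]
    refine Nat.card_congr (Equiv.subtypeEquivRight fun y => ?_)
    rw [Quotient.eq'']
    rfl
  have h3 : (Nat.card (MulAction.orbit H x) : ℂ) ≠ 0 := by
    have : Nonempty (MulAction.orbit H x) := ⟨⟨x, MulAction.mem_orbit_self x⟩⟩
    exact_mod_cast Nat.card_pos.ne'
  rw [h2, ← mul_assoc, mul_inv_cancel₀ h3, one_mul]

end even

variable {G : Type} [Group G]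

/-- gluing the trivial character of a subgroup and an invariant linear character of a normal subgroup -/
lemma glue1 {M : Type} [CommGroup M] (K : Subgroup G) [K.Normal] (U : Subgroup G) (μ : K →* M)
    (hμ : ∀ (u : U) (k : K), μ (MulAut.conjNormal (u : G) k) = μ k)
    (h : ∀ (x : G) (_ : x ∈ U) (hK : x ∈ K), μ ⟨x, hK⟩ = 1) :
    ∃ κ : (U ⊔ K : Subgroup G) →* M, (∀ (x : G) (hx : x ∈ U), κ ⟨x, mem_sup_left hx⟩ = 1) ∧
      ∀ (k : G) (hk : k ∈ K), κ ⟨k, mem_sup_right hk⟩ = μ ⟨k, hk⟩ := by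
  classical
  have hex : ∀ z : (U ⊔ K : Subgroup G), ∃ u : U, (u : G)⁻¹ * z ∈ K := by
    rintro ⟨z, hz⟩
    obtain ⟨x, hx, k, hk, rfl⟩ := mem_sup_of_normal_right.mp hz
    exact ⟨⟨x, hx⟩, by simpa using hk⟩
  choose c hc using hex
  have hwd : ∀ (z : (U ⊔ K : Subgroup G)) (u : U) (hu : (u : G)⁻¹ * z ∈ K),
      μ ⟨(u : G)⁻¹ * z, hu⟩ = μ ⟨(c z : G)⁻¹ * z, hc z⟩ := by
    intro z u hu
    have h1 : ((u⁻¹ * c z : U) : G) ∈ K := by
      have h2 := mul_mem hu (inv_mem (hc z))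
      have h3 : (u : G)⁻¹ * z * ((c z : G)⁻¹ * z)⁻¹ = ((u⁻¹ * c z : U) : G) := by
        simp only [Subgroup.coe_mul, Subgroup.coe_inv]; group
      rwa [h3] at h2
    have h2 := h _ (u⁻¹ * c z : U).2 h1
    have h3 : (⟨(u : G)⁻¹ * z, hu⟩ : K) = ⟨((u⁻¹ * c z : U) : G), h1⟩ * ⟨(c z : G)⁻¹ * z, hc z⟩ := by
      apply Subtype.ext
      simp only [Subgroup.coe_mul, Subgroup.coe_inv]
      group
    rw [h3, map_mul, h2, one_mul]
  refine ⟨MonoidHom.mk' (fun z => μ ⟨(c z : G)⁻¹ * z, hc z⟩) ?_, ?_, ?_⟩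
  · intro z w
    have h0 : ((c z * c w : U) : G)⁻¹ * ((z * w : (U ⊔ K : Subgroup G)) : G)
        = ((c w : G)⁻¹ * ((c z : G)⁻¹ * z) * (c w : G)) * ((c w : G)⁻¹ * w) := by
      simp only [Subgroup.coe_mul]
      group
    have h1 : (c w : G)⁻¹ * ((c z : G)⁻¹ * z) * (c w : G) ∈ K := by
      have h2 := (inferInstance : K.Normal).conj_mem _ (hc z) (c w : G)⁻¹
      rwa [inv_inv] at h2
    have h2 : ((c z * c w : U) : G)⁻¹ * ((z * w : (U ⊔ K : Subgroup G)) : G) ∈ K := by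
      rw [h0]
      exact mul_mem h1 (hc w)
    rw [← hwd (z * w) (c z * c w) h2]
    have h3 : (⟨((c z * c w : U) : G)⁻¹ * ((z * w : (U ⊔ K : Subgroup G)) : G), h2⟩ : K)
        = MulAut.conjNormal (c w : G)⁻¹ ⟨(c z : G)⁻¹ * z, hc z⟩ * ⟨(c w : G)⁻¹ * w, hc w⟩ := by
      apply Subtype.ext
      change ((c z * c w : U) : G)⁻¹ * ((z * w : (U ⊔ K : Subgroup G)) : G) =
        ((MulAut.conjNormal (c w : G)⁻¹ ⟨(c z : G)⁻¹ * z, hc z⟩ : K) : G) * ((c w : G)⁻¹ * w)
      rw [MulAut.conjNormal_apply, inv_inv]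
      exact h0
    have h4 := hμ (c w)⁻¹ ⟨(c z : G)⁻¹ * z, hc z⟩
    rw [Subgroup.coe_inv] at h4
    rw [h3, map_mul, h4]
  · intro x hx
    have h1 : ((⟨x, hx⟩ : U) : G)⁻¹ * ((⟨x, mem_sup_left hx⟩ : (U ⊔ K : Subgroup G)) : G) ∈ K := by
      simp
    have h2 := hwd ⟨x, mem_sup_left hx⟩ ⟨x, hx⟩ h1
    have h3 : (⟨((⟨x, hx⟩ : U) : G)⁻¹ * ((⟨x, mem_sup_left hx⟩ : (U ⊔ K : Subgroup G)) : G), h1⟩ : K) = 1 := by
      apply Subtype.ext
      simp
    rw [h3, map_one] at h2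
    exact h2.symm
  · intro k hk
    have h1 : ((1 : U) : G)⁻¹ * ((⟨k, mem_sup_right hk⟩ : (U ⊔ K : Subgroup G)) : G) ∈ K := by
      simpa using hk
    have h2 := hwd ⟨k, mem_sup_right hk⟩ 1 h1
    have h3 : (⟨((1 : U) : G)⁻¹ * ((⟨k, mem_sup_right hk⟩ : (U ⊔ K : Subgroup G)) : G), h1⟩ : K) = ⟨k, hk⟩ := by
      apply Subtype.ext
      simp
    rw [h3] at h2
    exact h2.symm

variable [Finite G]

/-- sums over products of elements of a subgroup and a normal subgroup -/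
lemma sum_mul (A N : Subgroup G) [N.Normal] [Fintype A] [Fintype N] [Fintype (A ⊔ N : Subgroup G)] (F : G → ℂ) :
    ∑ a : A, ∑ n : N, F (a * n) = (Nat.card (A ⊓ N : Subgroup G) : ℂ) * ∑ x : (A ⊔ N : Subgroup G), F x := by
  classical
  let φ : A × N → (A ⊔ N : Subgroup G) := fun p => ⟨p.1 * p.2, mul_mem (mem_sup_left p.1.2) (mem_sup_right p.2.2)⟩
  have h0 : ∑ a : A, ∑ n : N, F (a * n) = ∑ p : A × N, F (φ p) := by
    rw [Fintype.sum_prod_type]
  rw [h0, ← Finset.sum_fiberwise (s := Finset.univ) (g := φ), Finset.mul_sum]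
  refine Finset.sum_congr rfl fun x _ => ?_
  have h1 : ∀ p ∈ Finset.univ.filter (fun p : A × N => φ p = x), F (φ p) = F x := by
    intro p hp
    rw [(Finset.mem_filter.mp hp).2]
  rw [Finset.sum_congr rfl h1, Finset.sum_const, nsmul_eq_mul]
  congr 2
  obtain ⟨a0, ha0, n0, hn0, h2⟩ := mem_sup_of_normal_right.mp x.2
  rw [← Fintype.card_subtype, ← Nat.card_eq_fintype_card]
  refine Nat.card_congr ⟨fun p => ⟨a0⁻¹ * p.1.1, A.mul_mem (A.inv_mem ha0) p.1.1.2, ?_⟩,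
    fun z => ⟨(⟨a0 * z, A.mul_mem ha0 z.2.1⟩, ⟨z⁻¹ * n0, N.mul_mem (N.inv_mem z.2.2) hn0⟩), ?_⟩, ?_, ?_⟩
  · have h3 : (p.1.1 : G) * p.1.2 = a0 * n0 := (congrArg Subtype.val p.2).trans h2.symm
    have h4 : a0⁻¹ * (p.1.1 : G) = n0 * (p.1.2 : G)⁻¹ := by
      rw [eq_mul_inv_iff_mul_eq, mul_assoc, h3]
      group
    rw [h4]
    exact N.mul_mem hn0 (N.inv_mem p.1.2.2)
  · apply Subtype.ext
    change a0 * (z : G) * ((z : G)⁻¹ * n0) = x
    rw [← h2]
    group
  · intro p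
    apply Subtype.ext
    apply Prod.ext
    · apply Subtype.ext
      change a0 * (a0⁻¹ * (p.1.1 : G)) = _
      group
    · apply Subtype.ext
      change (a0⁻¹ * (p.1.1 : G))⁻¹ * n0 = p.1.2
      have h3 : (p.1.1 : G) * p.1.2 = a0 * n0 := (congrArg Subtype.val p.2).trans h2.symm
      have h4 : (p.1.2 : G) = (p.1.1 : G)⁻¹ * (a0 * n0) := by
        rw [← h3]; group
      rw [h4]
      group
  · intro z
    apply Subtype.ext
    change a0⁻¹ * (a0 * (z : G)) = z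
    group

lemma card_mul (A N : Subgroup G) [N.Normal] :
    (Nat.card A : ℂ) * Nat.card N = (Nat.card (A ⊓ N : Subgroup G) : ℂ) * Nat.card (A ⊔ N : Subgroup G) := by
  classical
  have : Fintype A := Fintype.ofFinite A
  have : Fintype N := Fintype.ofFinite N
  have : Fintype (A ⊔ N : Subgroup G) := Fintype.ofFinite _
  have h := sum_mul A N (fun _ => (1 : ℂ))
  simp only [Finset.sum_const, Finset.card_univ, nsmul_eq_mul, mul_one, ← Nat.card_eq_fintype_card] at h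
  exact h

/-- the multiplicity of the trivial character of `H` in the class function `D` -/
noncomputable def mn (D : G → ℂ) (H : Subgroup G) : ℂ := (Nat.card H : ℂ)⁻¹ * ∑ᶠ h : H, D h

lemma mn_eq (D : G → ℂ) (H : Subgroup G) [Fintype H] : mn D H = (Nat.card H : ℂ)⁻¹ * ∑ h : H, D h := by
  rw [mn, finsum_eq_sum_of_fintype]

lemma mn_int {D : G → ℂ} (hD : Virt D) (H : Subgroup G) : ∃ z : ℤ, mn D H = z := by
  classical
  have : Fintype H := Fintype.ofFinite H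
  obtain ⟨z, hz⟩ := (hD.comp H.subtype).pr_int (lin_irr (1 : H →* ℂˣ))
  refine ⟨z, ?_⟩
  rw [← hz, pr_eq, mn_eq]
  simp

/-- the average of a part over a subgroup -/
noncomputable def av (N : Subgroup G) (μ : N →* ℂˣ) (D : G → ℂ) (A : Subgroup G) : ℂ :=
  (Nat.card A : ℂ)⁻¹ * ∑ᶠ a : A, part N μ D a

lemma av_eq (N : Subgroup G) (μ : N →* ℂˣ) (D : G → ℂ) (A : Subgroup G) [Fintype A] :
    av N μ D A = (Nat.card A : ℂ)⁻¹ * ∑ a : A, part N μ D a := by
  rw [av, finsum_eq_sum_of_fintype]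

/-- the average over a subgroup on which the character extends -/
lemma av_glue (N : Subgroup G) [N.Normal] (μ : N →* ℂˣ) (D : G → ℂ) (A : Subgroup G)
    (κ : (A ⊔ N : Subgroup G) →* ℂˣ) (h1 : ∀ (x : G) (hx : x ∈ A), κ ⟨x, mem_sup_left hx⟩ = 1)
    (h2 : ∀ (k : G) (hk : k ∈ N), κ ⟨k, mem_sup_right hk⟩ = μ ⟨k, hk⟩) :
    av N μ D A = pr (fun x : (A ⊔ N : Subgroup G) => D x) (fun x => ((κ x : ℂˣ) : ℂ)) := by
  classical
  have : Fintype A := Fintype.ofFinite A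
  have : Fintype N := Fintype.ofFinite N
  have : Fintype (A ⊔ N : Subgroup G) := Fintype.ofFinite _
  rw [av_eq, pr_eq]
  have h3 : ∀ a : A, part N μ D a = (Nat.card N : ℂ)⁻¹ *
      ∑ n : N, ext (A ⊔ N) (fun x => D x * ((κ x⁻¹ : ℂˣ) : ℂ)) (a * n) := by
    intro a
    rw [part_eq]
    congr 1
    refine Finset.sum_congr rfl fun n _ => ?_
    have h4 : (a : G) * n ∈ A ⊔ N := mul_mem (mem_sup_left a.2) (mem_sup_right n.2)
    rw [ext_mem _ _ h4, map_inv]
    have h5 : κ ⟨(a : G) * n, h4⟩ = μ n := by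
      have h6 : (⟨(a : G) * n, h4⟩ : (A ⊔ N : Subgroup G)) = ⟨a, mem_sup_left a.2⟩ * ⟨n, mem_sup_right n.2⟩ := rfl
      rw [h6, map_mul, h1 _ a.2, h2 _ n.2, one_mul]
    rw [h5]
  rw [Finset.sum_congr rfl (fun a _ => h3 a), ← Finset.mul_sum, sum_mul A N]
  have h4 : ∀ x : (A ⊔ N : Subgroup G), ext (A ⊔ N) (fun x => D x * ((κ x⁻¹ : ℂˣ) : ℂ)) (x : G) =
      D x * ((κ x⁻¹ : ℂˣ) : ℂ) := fun x => ext_coe _ _ x
  rw [Finset.sum_congr rfl (fun x _ => h4 x)]
  have h5 := card_mul A N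
  have hA : (Nat.card A : ℂ) ≠ 0 := card_ne
  have hN : (Nat.card N : ℂ) ≠ 0 := card_ne
  have hAN : (Nat.card (A ⊔ N : Subgroup G) : ℂ) ≠ 0 := card_ne
  rw [← mul_assoc, ← mul_assoc]
  congr 1
  field_simp
  linear_combination -h5

end Run7.h988.PY
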