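import Mathlib
import Pool.Agent.Run7.h988.PY.Basic

/-!
# Parities of multiplicities: one layer
-/

set_option autoImplicit false
set_option linter.unusedSectionVars false

namespace Run7.h988.PY

open Pool.Agent.R389 Pool.Agent.H302R2 Pool.Agent.H302R3 Pool.Agent.H541R3.ART Pool.Agent.W446.AS Subgroup
open Run7.h988.DR

variable {G : Type} [Group G] [Finite G]

/-- the character of `N` is trivial on `N ∩ H` -/
def Tr (N H : Subgroup G) (μ : N →* ℂˣ) : Prop := ∀ m, ∀ hm : m ∈ N ⊓ H, μ ⟨m, hm.1⟩ = 1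

section powers

variable {N : Subgroup G} [N.Normal]

lemma pow_card (μ : N →* ℂˣ) {m : ℕ} (hm : m ≡ 1 [MOD Nat.card G]) : μ ^ m = μ := by
  ext n
  rw [MonoidHom.pow_apply]
  have h1 : μ n ^ Nat.card G = 1 := by
    rw [← map_pow]
    have h2 : n ^ Nat.card G = 1 := by
      apply Subtype.ext
      rw [SubmonoidClass.coe_pow]
      exact pow_card_eq_one'
    rw [h2, map_one]
  have h2 := pow_eq_pow_of_modEq hm h1
  rw [h2, pow_one]

lemma one_pow' (k : ℕ) : (1 : N →* ℂˣ) ^ k = 1 := by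
  ext n
  rw [MonoidHom.pow_apply, MonoidHom.one_apply, one_pow]

lemma pow_pow' (μ : N →* ℂˣ) (a b : ℕ) : (μ ^ a) ^ b = μ ^ (a * b) := by
  ext n
  rw [MonoidHom.pow_apply, MonoidHom.pow_apply, MonoidHom.pow_apply, pow_mul]

lemma pow_one' (μ : N →* ℂˣ) : μ ^ 1 = μ := by
  ext n
  rw [MonoidHom.pow_apply, pow_one]

lemma cmu_pow (x : G) (μ : N →* ℂˣ) (m : ℕ) : cmu x (μ ^ m) = (cmu x μ) ^ m := by
  ext n
  rw [cmu_apply, MonoidHom.pow_apply, MonoidHom.pow_apply, cmu_apply]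

lemma pow_inj {k : ℕ} (hk : Nat.Coprime (Nat.card G) k) {μ ν : N →* ℂˣ} (h : μ ^ k = ν ^ k) : μ = ν := by
  have h0 : k ^ Nat.totient (Nat.card G) ≡ 1 [MOD Nat.card G] := Nat.ModEq.pow_totient hk.symm
  have hpos : 0 < Nat.totient (Nat.card G) := Nat.totient_pos.mpr Nat.card_pos
  obtain ⟨t, ht⟩ : ∃ t, Nat.totient (Nat.card G) = t + 1 := ⟨_, (Nat.succ_pred_eq_of_pos hpos).symm⟩
  rw [ht, pow_succ'] at h0
  have h1 : ∀ n, (μ n) ^ k = (ν n) ^ k := fun n => by
    rw [← MonoidHom.pow_apply, ← MonoidHom.pow_apply, h]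
  rw [← pow_card μ h0, ← pow_card ν h0]
  ext n
  rw [MonoidHom.pow_apply, MonoidHom.pow_apply, pow_mul, pow_mul, h1]

lemma stb_pow {k : ℕ} (hk : Nat.Coprime (Nat.card G) k) (μ : N →* ℂˣ) : stb (μ ^ k) = stb μ := by
  ext x
  rw [mem_stb, mem_stb, cmu_pow]
  exact ⟨fun h => pow_inj hk h, fun h => by rw [h]⟩

end powers

lemma cop_of_modEq {n k s : ℕ} (hs : k ^ 2 ^ s ≡ 1 [MOD n]) : Nat.Coprime n k := by
  have h1 := hs.gcd_eq
  rw [Nat.gcd_one_left] at h1
  have h2 : Nat.Coprime n (k ^ 2 ^ s) := by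
    rw [Nat.coprime_comm]; exact h1
  exact (Nat.coprime_pow_right_iff (by positivity) _ _).mp h2

section layer

variable {D : G → ℂ} (hD : Virt D) (N H : Subgroup G) [N.Normal]

include hD

/-- a linear character trivial on `N ∩ H` extends by the trivial character of `H ∩ stb` -/
lemma glue_ex {μ : N →* ℂˣ} (hμ : Tr N H μ) :
    ∃ κ : (H ⊓ stb μ ⊔ N : Subgroup G) →* ℂˣ,
      (∀ (x : G) (hx : x ∈ H ⊓ stb μ), κ ⟨x, mem_sup_left hx⟩ = 1) ∧
      (∀ (n : G) (hn : n ∈ N), κ ⟨n, mem_sup_right hn⟩ = μ ⟨n, hn⟩) := by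
  refine glue1 N (H ⊓ stb μ) μ (fun u n => stb_inv u.2.2 n) ?_
  intro x hx hN
  exact hμ x ⟨hN, hx.1⟩

lemma av_int {μ : N →* ℂˣ} (hμ : Tr N H μ) : ∃ z : ℤ, av N μ D (H ⊓ stb μ) = z := by
  obtain ⟨κ, h1, h2⟩ := glue_ex hD N H hμ
  rw [av_glue N μ D _ κ h1 h2]
  obtain ⟨z, hz⟩ := (hD.comp (H ⊓ stb μ ⊔ N : Subgroup G).subtype).pr_int (lin_irr κ)
  exact ⟨z, hz⟩

lemma av_pow {k : ℕ} (hk : Nat.Coprime (Nat.card G) k) (hDk : ∀ g, D (g ^ k) = D g) {μ : N →* ℂˣ}
    (hμ : Tr N H μ) : av N (μ ^ k) D (H ⊓ stb μ) = av N μ D (H ⊓ stb μ) := by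
  classical
  obtain ⟨κ, h1, h2⟩ := glue_ex hD N H hμ
  rw [av_glue N μ D _ κ h1 h2, av_glue N (μ ^ k) D _ (κ ^ k)]
  · have : Fintype (H ⊓ stb μ ⊔ N : Subgroup G) := Fintype.ofFinite _
    rw [pr_eq, pr_eq]
    congr 1
    have hk' : Nat.Coprime (Nat.card (H ⊓ stb μ ⊔ N : Subgroup G)) k :=
      Nat.Coprime.coprime_dvd_left (Subgroup.card_subgroup_dvd_card _) hk
    rw [← Equiv.sum_comp (powCoprime hk') (fun x : (H ⊓ stb μ ⊔ N : Subgroup G) => D x * ((κ x⁻¹ : ℂˣ) : ℂ))]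
    refine Finset.sum_congr rfl fun x _ => ?_
    rw [powCoprime_apply, SubmonoidClass.coe_pow, hDk, MonoidHom.pow_apply, ← inv_pow, map_pow]
  · intro x hx
    rw [MonoidHom.pow_apply, h1 x hx, one_pow]
  · intro n hn
    rw [MonoidHom.pow_apply, MonoidHom.pow_apply, h2 n hn]

/-- the average over `H` and over the stabilizer -/
lemma av_stb (μ : N →* ℂˣ) :
    (Nat.card H : ℂ) * av N μ D H = (Nat.card (H ⊓ stb μ : Subgroup G) : ℂ) * av N μ D (H ⊓ stb μ) := by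
  classical
  have : Fintype H := Fintype.ofFinite H
  have : Fintype (H ⊓ stb μ : Subgroup G) := Fintype.ofFinite _
  rw [av_eq, av_eq, mul_inv_cancel_left₀ card_ne, mul_inv_cancel_left₀ card_ne]
  have h1 : ∑ a : (H ⊓ stb μ : Subgroup G), part N μ D a = ∑ g ∈ (Finset.univ : Finset H).filter
      (fun g : H => (g : G) ∈ stb μ), part N μ D (g : G) := by
    refine Finset.sum_bij (fun a _ => (⟨a, a.2.1⟩ : H)) ?_ ?_ ?_ ?_
    · intro a _
      rw [Finset.mem_filter]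
      exact ⟨Finset.mem_univ _, a.2.2⟩
    · intro a _ b _ h
      apply Subtype.ext
      exact congrArg (fun z : H => (z : G)) h
    · intro b hb
      exact ⟨⟨b, b.2, (Finset.mem_filter.mp hb).2⟩, Finset.mem_univ _, rfl⟩
    · intro a _
      rfl
  rw [h1, Finset.sum_filter]
  refine Finset.sum_congr rfl fun g _ => ?_
  split_ifs with h
  · rfl
  · exact part_outside hD.conj h

lemma av_conj (μ : N →* ℂˣ) {h : G} (hh : h ∈ H) : av N (cmu h μ) D H = av N μ D H := by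
  classical
  have : Fintype H := Fintype.ofFinite H
  rw [av_eq, av_eq]
  congr 1
  rw [← Equiv.sum_comp (MulAut.conj (⟨h, hh⟩ : H)).toEquiv (fun a : H => part N (cmu h μ) D a)]
  refine Finset.sum_congr rfl fun a _ => ?_
  rw [← part_conj μ hD.conj]
  congr 1
  change h⁻¹ * (h * a * h⁻¹) * h = a
  group

lemma av_triv : av N 1 D H = mn D (H ⊔ N) := by
  classical
  have : Fintype H := Fintype.ofFinite H
  have : Fintype N := Fintype.ofFinite N
  have : Fintype (H ⊔ N : Subgroup G) := Fintype.ofFinite _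
  rw [av_eq, mn_eq]
  have h1 : ∀ a : H, part N 1 D a = (Nat.card N : ℂ)⁻¹ * ∑ n : N, D (a * n) := by
    intro a
    rw [part_one, inv_eq]
  rw [Finset.sum_congr rfl (fun a _ => h1 a), ← Finset.mul_sum, sum_mul H N]
  have h5 := card_mul H N
  have hA : (Nat.card H : ℂ) ≠ 0 := card_ne
  have hN : (Nat.card N : ℂ) ≠ 0 := card_ne
  have hAN : (Nat.card (H ⊔ N : Subgroup G) : ℂ) ≠ 0 := card_ne
  rw [← mul_assoc, ← mul_assoc]
  congr 1
  field_simp
  linear_combination -h5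

open Classical in
lemma mn_sum [Fintype (N →* ℂˣ)] (hab : ⁅N, N⁆ ≤ H) :
    mn D H = ∑ μ ∈ (Finset.univ : Finset (N →* ℂˣ)).filter (Tr N H), av N μ D H := by
  have : Fintype H := Fintype.ofFinite H
  have : Fintype (N ⊓ H : Subgroup G) := Fintype.ofFinite _
  have hab' : ⁅N, N⁆ ≤ N ⊓ H := le_inf (Subgroup.commutator_le_self N) hab
  have h1 : ∀ a : H, inv (N ⊓ H) D a =
      ∑ μ ∈ (Finset.univ : Finset (N →* ℂˣ)).filter (Tr N H), part N μ D a := by
    intro a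
    exact inv_layer N (N ⊓ H) inf_le_left hab' D a
  have h2 : ∑ a : H, inv (N ⊓ H) D a = ∑ a : H, D a := by
    have h3 : ∀ a : H, inv (N ⊓ H) D a = (Nat.card (N ⊓ H : Subgroup G) : ℂ)⁻¹ * ∑ m : (N ⊓ H : Subgroup G), D (a * m) :=
      fun a => inv_eq _ _ _
    rw [Finset.sum_congr rfl (fun a _ => h3 a), ← Finset.mul_sum, Finset.sum_comm]
    have h4 : ∀ m : (N ⊓ H : Subgroup G), ∑ a : H, D (a * m) = ∑ a : H, D a := by
      intro m
      rw [← Equiv.sum_comp (Equiv.mulRight (⟨m, m.2.2⟩ : H)) (fun a : H => D a)]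
      rfl
    rw [Finset.sum_congr rfl (fun m _ => h4 m), Finset.sum_const, Finset.card_univ, nsmul_eq_mul,
      ← Nat.card_eq_fintype_card, inv_mul_cancel_left₀ card_ne]
  rw [mn_eq, ← h2, Finset.sum_congr rfl (fun a _ => h1 a), Finset.sum_comm, Finset.mul_sum]
  refine Finset.sum_congr rfl fun μ _ => ?_
  rw [av_eq]

end layer

section main

variable (N H : Subgroup G) [N.Normal]

/-- the nontrivial characters of `N` trivial on `N ∩ H` -/
abbrev XX : Type := {μ : N →* ℂˣ // μ ≠ 1 ∧ Tr N H μ}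

lemma tr_cmu {μ : N →* ℂˣ} (hμ : Tr N H μ) {h : G} (hh : h ∈ H) : Tr N H (cmu h μ) := by
  intro m hm
  rw [cmu_apply]
  have h1 : ((MulAut.conjNormal h⁻¹ (⟨m, hm.1⟩ : N) : N) : G) ∈ N ⊓ H := by
    refine ⟨Subtype.prop _, ?_⟩
    rw [MulAut.conjNormal_apply]
    exact H.mul_mem (H.mul_mem (H.inv_mem hh) hm.2) (H.inv_mem (H.inv_mem hh))
  exact hμ _ h1

lemma cmu_ne {μ : N →* ℂˣ} (hμ : μ ≠ 1) (h : G) : cmu h μ ≠ 1 := by
  intro h1
  apply hμ
  rw [← cmu_one μ, ← inv_mul_cancel h, cmu_mul, h1]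
  ext n
  rfl

noncomputable instance actX : MulAction H (XX N H) where
  smul h x := ⟨cmu (h : G) x.1, cmu_ne N x.2.1 _, tr_cmu N H x.2.2 h.2⟩
  one_smul x := Subtype.ext (cmu_one _)
  mul_smul a b x := Subtype.ext (cmu_mul _ _ _)

lemma smul_val (h : H) (x : XX N H) : (h • x).1 = cmu (h : G) x.1 := rfl

lemma card_orb (x : XX N H) :
    (Nat.card (MulAction.orbit H x) : ℂ) * Nat.card (H ⊓ stb x.1 : Subgroup G) = Nat.card H := by
  have h1 : Nat.card (MulAction.stabilizer H x) = Nat.card (H ⊓ stb x.1 : Subgroup G) := by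
    refine Nat.card_congr ⟨fun a => ⟨a.1, a.1.2, ?_⟩, fun a => ⟨⟨a, a.2.1⟩, ?_⟩, fun a => rfl, fun a => rfl⟩
    · exact congrArg Subtype.val a.2
    · exact Subtype.ext a.2.2
  have h2 : Nat.card (MulAction.orbit H x) * Nat.card (MulAction.stabilizer H x) = Nat.card H := by
    rw [← Nat.card_prod]
    exact Nat.card_congr (MulAction.orbitProdStabilizerEquivGroup H x)
  rw [← h1]
  exact_mod_cast h2

/-- the contribution of the orbit of a character -/
noncomputable def FF (D : G → ℂ) (x : XX N H) : ℂ := Nat.card (MulAction.orbit H x) * av N x.1 D H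

variable {D : G → ℂ} (hD : Virt D)

include hD

lemma FF_eq (x : XX N H) : FF N H D x = av N x.1 D (H ⊓ stb x.1) := by
  have h1 := card_orb N H x
  have h2 := av_stb hD N H x.1
  have hA : (Nat.card (H ⊓ stb x.1 : Subgroup G) : ℂ) ≠ 0 := card_ne
  rw [FF]
  apply mul_left_cancel₀ hA
  rw [← h2, ← h1]
  ring

lemma FF_smul (h : H) (x : XX N H) : FF N H D (h • x) = FF N H D x := by
  rw [FF, FF, MulAction.orbit_smul, smul_val, av_conj hD N H x.1 h.2]

/-- the parity of the multiplicity of the trivial character over one abelian layer -/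
theorem core' (hab : ⁅N, N⁆ ≤ H) (k s : ℕ) (hDk : ∀ g, D (g ^ k) = D g)
    (hs : k ^ 2 ^ s ≡ 1 [MOD Nat.card G])
    (hfix : ∀ μ : N →* ℂˣ, μ ≠ 1 → Tr N H μ → (∃ h ∈ H, μ ^ k = cmu h μ) →
      ∃ z : ℤ, av N μ D (H ⊓ stb μ) = 2 * z) :
    ∃ z : ℤ, mn D H - mn D (H ⊔ N) = 2 * z := by
  classical
  have hk := cop_of_modEq hs
  have : Fintype H := Fintype.ofFinite _
  have : Fintype (N →* ℂˣ) := Fintype.ofFinite _
  have : Fintype (XX N H) := Fintype.ofFinite _
  have : Fintype (MulAction.orbitRel.Quotient H (XX N H)) := Fintype.ofFinite _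
  -- the function on the orbits
  let nq : MulAction.orbitRel.Quotient H (XX N H) → ℂ := Quotient.lift (FF N H D) (by
    intro a b hab
    obtain ⟨h, rfl⟩ : a ∈ MulAction.orbit H b := hab
    exact FF_smul N H hD h b)
  have hnq : ∀ x : XX N H, nq (Quotient.mk'' x) = FF N H D x := fun x => rfl
  -- the permutation
  let fX : XX N H → XX N H := fun x => ⟨x.1 ^ k, by
    refine ⟨fun h => x.2.1 (pow_inj hk (by rw [h, one_pow'])), fun m hm => ?_⟩
    rw [MonoidHom.pow_apply, x.2.2 m hm, one_pow]⟩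
  let fq : MulAction.orbitRel.Quotient H (XX N H) → MulAction.orbitRel.Quotient H (XX N H) :=
    Quotient.map fX (by
      intro a b hab
      obtain ⟨h, rfl⟩ : a ∈ MulAction.orbit H b := hab
      refine ⟨h, Subtype.ext ?_⟩
      change cmu (h : G) (b.1 ^ k) = (cmu (h : G) b.1) ^ k
      rw [cmu_pow])
  have hfq : ∀ x : XX N H, fq (Quotient.mk'' x) = Quotient.mk'' (fX x) := fun x => rfl
  have hfX : ∀ (m : ℕ) (x : XX N H), (fX^[m] x).1 = x.1 ^ k ^ m := by
    intro m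
    induction m with
    | zero => intro x; rw [pow_zero, pow_one']; rfl
    | succ m ih =>
      intro x
      rw [Function.iterate_succ_apply', pow_succ, ← pow_pow', ← ih]
  have hfqm : ∀ (m : ℕ) (x : XX N H), fq^[m] (Quotient.mk'' x) = Quotient.mk'' (fX^[m] x) := by
    intro m
    induction m with
    | zero => intro x; rfl
    | succ m ih =>
      intro x
      rw [Function.iterate_succ_apply', Function.iterate_succ_apply', ih, hfq]
  have hf1 : fq^[2 ^ s] = id := by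
    funext ω
    obtain ⟨x, rfl⟩ := Quotient.mk''_surjective ω
    rw [hfqm, id]
    congr 1
    apply Subtype.ext
    rw [hfX, pow_card _ hs]
  have hf2 : ∀ ω, fq ω = ω → ∃ z : ℤ, nq ω = 2 * z := by
    intro ω
    obtain ⟨x, rfl⟩ := Quotient.mk''_surjective ω
    rw [hfq]
    intro h
    obtain ⟨g, hg⟩ : fX x ∈ MulAction.orbit H x := Quotient.eq''.mp h
    rw [hnq, FF_eq N H hD]
    refine hfix x.1 x.2.1 x.2.2 ⟨g, g.2, ?_⟩
    have h2 := congrArg Subtype.val hg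
    exact h2.symm
  have hint : ∀ ω, ∃ z : ℤ, nq ω = z := by
    intro ω
    obtain ⟨x, rfl⟩ := Quotient.mk''_surjective ω
    rw [hnq, FF_eq N H hD]
    exact av_int hD N H x.2.2
  choose n hn using hint
  have hnf : ∀ ω, n (fq ω) = n ω := by
    intro ω
    have h1 : ((n (fq ω) : ℤ) : ℂ) = ((n ω : ℤ) : ℂ) := by
      rw [← hn, ← hn]
      obtain ⟨x, rfl⟩ := Quotient.mk''_surjective ω
      rw [hfq, hnq, hnq, FF_eq N H hD, FF_eq N H hD]
      change av N (x.1 ^ k) D (H ⊓ stb (x.1 ^ k)) = _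
      rw [stb_pow hk, av_pow hD N H hk hDk x.2.2]
    exact_mod_cast h1
  obtain ⟨z, hz⟩ := even_sum fq s hf1 n (fun ω hω => by
    obtain ⟨z, hz⟩ := hf2 ω hω
    refine ⟨z, ?_⟩
    rw [hn] at hz
    exact_mod_cast hz) hnf
  refine ⟨z, ?_⟩
  have h1 : ∑ ω, nq ω = 2 * z := by
    rw [Finset.sum_congr rfl (fun ω _ => hn ω)]
    exact_mod_cast hz
  rw [← h1, ← sum_orbits nq]
  have h2 : ∀ x : XX N H, ((Nat.card (MulAction.orbit H x) : ℂ))⁻¹ * nq (Quotient.mk'' x) = av N x.1 D H := by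
    intro x
    rw [hnq, FF]
    have h3 : (Nat.card (MulAction.orbit H x) : ℂ) ≠ 0 := by
      have : Nonempty (MulAction.orbit H x) := ⟨⟨x, MulAction.mem_orbit_self x⟩⟩
      exact_mod_cast Nat.card_pos.ne'
    rw [inv_mul_cancel_left₀ h3]
  rw [Finset.sum_congr rfl (fun x _ => h2 x), mn_sum hD N H hab, ← av_triv hD N H]
  have h3 : (1 : N →* ℂˣ) ∈ (Finset.univ : Finset (N →* ℂˣ)).filter (Tr N H) := by
    rw [Finset.mem_filter]
    exact ⟨Finset.mem_univ _, fun m hm => rfl⟩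
  rw [← Finset.add_sum_erase _ _ h3, add_sub_cancel_left]
  refine Finset.sum_bij' (fun μ hμ => (⟨μ, ?_⟩ : XX N H)) (fun x _ => x.1) ?_ ?_ ?_ ?_ ?_
  · rw [Finset.mem_erase, Finset.mem_filter] at hμ
    exact ⟨hμ.1, hμ.2.2⟩
  · intro μ _
    exact Finset.mem_univ _
  · intro x _
    rw [Finset.mem_erase, Finset.mem_filter]
    exact ⟨x.2.1, Finset.mem_univ _, x.2.2⟩
  · intro μ _
    rfl
  · intro x _
    rfl
  · intro μ _
    rfl

/-- the parity of the multiplicity of the trivial character does not change over one abelian layer without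
fixed points -/
theorem core (hab : ⁅N, N⁆ ≤ H) (k s : ℕ) (hDk : ∀ g, D (g ^ k) = D g)
    (hs : k ^ 2 ^ s ≡ 1 [MOD Nat.card G])
    (hfix : ∀ μ : N →* ℂˣ, Tr N H μ → (∃ h ∈ H, μ ^ k = cmu h μ) → μ = 1) :
    ∃ z : ℤ, mn D H - mn D (H ⊔ N) = 2 * z :=
  core' N H hD hab k s hDk hs (fun μ hμ h1 h2 => absurd (hfix μ h1 h2) hμ)

end main

end Run7.h988.PY
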