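import Mathlib
import Pool.Agent.Run7.h988.PY.Core

/-!
# Parities of multiplicities along a solvable normal subgroup of odd order
-/

set_option autoImplicit false
set_option linter.unusedSectionVars false

namespace Run7.h988.PY

open Pool.Agent.R389 Pool.Agent.H302R2 Pool.Agent.H302R3 Pool.Agent.H541R3.ART Pool.Agent.W446.AS Subgroup
open Run7.h988.DR

variable {G : Type} [Group G] [Finite G]

lemma iter_cmu {N : Subgroup G} [N.Normal] {μ : N →* ℂˣ} {k : ℕ} {h : G} (hμ : μ ^ k = cmu h μ) (j : ℕ) :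
    μ ^ k ^ j = cmu (h ^ j) μ := by
  induction j with
  | zero => rw [pow_zero, pow_zero, pow_one', cmu_one]
  | succ j ih => rw [pow_succ k, ← pow_pow', ih, ← cmu_pow, hμ, ← cmu_mul, ← pow_succ]

/-- no character is raised to the `k`-th power by a conjugation -/
lemma no_fix (N : Subgroup G) [N.Normal] (a k : ℕ)
    (ha : ∀ g : G, (∃ b : ℕ, g ^ 2 ^ b = 1) → ∀ n ∈ N, g ^ 2 ^ a * n = n * g ^ 2 ^ a)
    (hq : ∀ q : ℕ, q.Prime → q ∣ Nat.card N → ∀ c : ℕ, Odd c → ¬ k ^ (c * 2 ^ a) ≡ 1 [MOD q])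
    (μ : N →* ℂˣ) (hμ : ∃ h, μ ^ k = cmu h μ) : μ = 1 := by
  obtain ⟨h, hh⟩ := hμ
  obtain ⟨b, c, hc, hbc⟩ := Nat.exists_eq_two_pow_mul_odd (orderOf_pos h).ne'
  have h1 : (h ^ c) ^ 2 ^ b = 1 := by
    rw [← pow_mul, mul_comm, ← hbc, pow_orderOf_eq_one]
  have h2 := ha (h ^ c) ⟨b, h1⟩
  have h3 : cmu (h ^ (c * 2 ^ a)) μ = μ := by
    ext n
    rw [cmu_apply]
    congr 2
    apply Subtype.ext
    rw [MulAut.conjNormal_apply, inv_inv, pow_mul]
    have h4 := h2 n n.2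
    rw [mul_assoc, ← h4]
    group
  have h4 := iter_cmu hh (c * 2 ^ a)
  rw [h3] at h4
  by_contra hne
  obtain ⟨n, hn⟩ : ∃ n, μ n ≠ 1 := by
    by_contra hcon
    push Not at hcon
    exact hne (MonoidHom.ext hcon)
  have h5 : μ n ^ k ^ (c * 2 ^ a) = μ n ^ 1 := by
    rw [← MonoidHom.pow_apply, h4, pow_one]
  have h6 := pow_eq_pow_iff_modEq.mp h5
  have h7 : orderOf (μ n) ≠ 1 := fun h => hn (orderOf_eq_one_iff.mp h)
  have h8 : orderOf (μ n) ∣ Nat.card N := by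
    apply orderOf_dvd_of_pow_eq_one
    rw [← map_pow, pow_card_eq_one', map_one]
  refine hq _ (Nat.minFac_prime h7) ((Nat.minFac_dvd _).trans h8) c hc ?_
  exact h6.of_dvd (Nat.minFac_dvd _)

lemma comm_lt (N : Subgroup G) (hsol : Group.IsSolvable N) (hN : N ≠ ⊥) : ⁅N, N⁆ < N := by
  have : Nontrivial N := (Subgroup.nontrivial_iff_ne_bot N).mpr hN
  have h1 := Group.IsSolvable.commutator_lt_top_of_nontrivial N
  refine lt_of_le_of_ne (Subgroup.commutator_le_self N) fun h => h1.ne ?_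
  apply Subgroup.map_injective N.subtype_injective
  rw [Subgroup.map_subtype_commutator, h, ← MonoidHom.range_eq_map, Subgroup.range_subtype]

/-- odd powers have `2`-power order -/
lemma odd_part {n k : ℕ} (hn : 0 < n) (hk : Nat.Coprime n k) :
    ∃ m, Odd m ∧ ∃ s, (k ^ m) ^ 2 ^ s ≡ 1 [MOD n] := by
  obtain ⟨s, m, hm, h⟩ := Nat.exists_eq_two_pow_mul_odd (Nat.totient_pos.mpr hn).ne'
  refine ⟨m, hm, s, ?_⟩
  rw [← pow_mul, mul_comm, ← h]
  exact Nat.ModEq.pow_totient hk.symm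

lemma D_pow {D : G → ℂ} {k : ℕ} (hDk : ∀ g, D (g ^ k) = D g) (m : ℕ) : ∀ g, D (g ^ k ^ m) = D g := by
  induction m with
  | zero => intro g; rw [pow_zero, pow_one]
  | succ m ih => intro g; rw [pow_succ, pow_mul, hDk, ih]

/-- the induction along the derived series -/
lemma tower_aux {D : G → ℂ} (hD : Virt D) (a k s : ℕ) (hDk : ∀ g, D (g ^ k) = D g)
    (hs : k ^ 2 ^ s ≡ 1 [MOD Nat.card G]) : ∀ (m : ℕ) (N : Subgroup G), N.Normal → Group.IsSolvable N → Nat.card N = m →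
    (∀ g : G, (∃ b : ℕ, g ^ 2 ^ b = 1) → ∀ n ∈ N, g ^ 2 ^ a * n = n * g ^ 2 ^ a) →
    (∀ q : ℕ, q.Prime → q ∣ Nat.card N → ∀ c : ℕ, Odd c → ¬ k ^ (c * 2 ^ a) ≡ 1 [MOD q]) →
    ∀ H : Subgroup G, ∃ z : ℤ, mn D H - mn D (H ⊔ N) = 2 * z := by
  intro m
  induction m using Nat.strong_induction_on with
  | _ m ih =>
    intro N hNn hsol hm ha hq H
    by_cases hN : N = ⊥
    · refine ⟨0, ?_⟩
      rw [hN, sup_bot_eq]
      simp
    have hlt := comm_lt N hsol hN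
    have hN' : ⁅N, N⁆.Normal := inferInstance
    have hsol' : Group.IsSolvable (⁅N, N⁆ : Subgroup G) :=
      Group.isSolvable_of_isSolvable_injective (Subgroup.inclusion_injective hlt.le)
    have hcard : Nat.card (⁅N, N⁆ : Subgroup G) < m := by
      rw [← hm]
      rcases lt_or_eq_of_le (Nat.le_of_dvd Nat.card_pos (Subgroup.card_dvd_of_le hlt.le)) with h | h
      · exact h
      · exact absurd (Subgroup.eq_of_le_of_card_ge hlt.le h.ge) hlt.ne
    obtain ⟨z₁, h1⟩ := ih _ hcard ⁅N, N⁆ hN' hsol' rfl (fun g hg n hn => ha g hg n (hlt.le hn))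
      (fun q hq1 hq2 => hq q hq1 (hq2.trans (Subgroup.card_dvd_of_le hlt.le))) H
    obtain ⟨z₂, h2⟩ := core N (H ⊔ ⁅N, N⁆) hD le_sup_right k s hDk hs
      (fun μ _ ⟨h, _, hh⟩ => no_fix N a k ha hq μ ⟨h, hh⟩)
    refine ⟨z₁ + z₂, ?_⟩
    have h3 : H ⊔ ⁅N, N⁆ ⊔ N = H ⊔ N := by
      rw [sup_assoc, sup_eq_right.mpr hlt.le]
    rw [h3] at h2
    push_cast
    linear_combination h1 + h2

/-- the parity of the multiplicity of the trivial character of `H` and of `H ⊔ N` -/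
theorem tower {D : G → ℂ} (hD : Virt D) (N : Subgroup G) [N.Normal] (hsol : Group.IsSolvable N) (a k : ℕ)
    (ha : ∀ g : G, (∃ b : ℕ, g ^ 2 ^ b = 1) → ∀ n ∈ N, g ^ 2 ^ a * n = n * g ^ 2 ^ a)
    (hk : Nat.Coprime (Nat.card G) k) (hDk : ∀ g, D (g ^ k) = D g)
    (hq : ∀ q : ℕ, q.Prime → q ∣ Nat.card N → 2 ^ (a + 1) ∣ orderOf (k : ZMod q)) (H : Subgroup G) :
    ∃ z : ℤ, mn D H - mn D (H ⊔ N) = 2 * z := by
  obtain ⟨m, hm, s, hs⟩ := odd_part Nat.card_pos hk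
  refine tower_aux hD a (k ^ m) s (D_pow hDk m) hs _ N inferInstance hsol rfl ha ?_ H
  intro q hq1 hq2 c hc h
  rw [← pow_mul] at h
  have h1 : ((k : ZMod q)) ^ (m * (c * 2 ^ a)) = 1 := by
    have h2 := (ZMod.natCast_eq_natCast_iff _ _ _).mpr h
    push_cast at h2
    exact h2
  have h2 := (hq q hq1 hq2).trans (orderOf_dvd_of_pow_eq_one h1)
  rw [pow_succ, ← mul_assoc, mul_comm (m * c), Nat.mul_dvd_mul_iff_left (by positivity)] at h2
  exact (Nat.not_even_iff_odd.mpr (hm.mul hc)) (even_iff_two_dvd.mpr h2)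

end Run7.h988.PY
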