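import Mathlib
import Pool.Agent.Run7.h988.PY.Tower
import Pool.Agent.R433.MD.Hyper

/-!
# Critical subgroups
-/

set_option autoImplicit false
set_option linter.unusedSectionVars false

namespace Run7.h988.PY

open Pool.Agent.R389 Pool.Agent.H302R2 Pool.Agent.H302R3 Pool.Agent.H541R3.ART Pool.Agent.W446.AS Subgroup
open Run7.h988.DR Pool.Agent.R433.MD

variable {G : Type} [Group G] [Finite G]

/-- the multiplicity of the trivial character is even -/
def Ev (D : G → ℂ) (H : Subgroup G) : Prop := ∃ z : ℤ, mn D H = 2 * z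

lemma Ev.of_sub {D : G → ℂ} {H H' : Subgroup G} (h : ∃ z : ℤ, mn D H - mn D H' = 2 * z) (hH : Ev D H) :
    Ev D H' := by
  obtain ⟨z, hz⟩ := h
  obtain ⟨w, hw⟩ := hH
  refine ⟨w - z, ?_⟩
  push_cast
  linear_combination hw - hz

/-- Frobenius reciprocity for the permutation character -/
lemma sum_fx {D : G → ℂ} (hc : ∀ g x : G, D (x * g * x⁻¹) = D g) (H : Subgroup G) [Fintype G] :
    (Nat.card G : ℂ)⁻¹ * ∑ g, D g * (fx H g : ℂ) = mn D H := by
  classical
  have : Fintype H := Fintype.ofFinite H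
  have : Fintype (G ⧸ H) := Fintype.ofFinite _
  have h1 : ∀ g : G, (fx H g : ℂ) = ∑ c : G ⧸ H, if g • c = c then (1 : ℂ) else 0 := by
    intro g
    rw [fx, Finset.sum_boole, Int.cast_natCast]
    congr 1
    rw [Nat.card_eq_fintype_card, Fintype.card_subtype]
  have h2 : ∀ c : G ⧸ H, ∑ g : G, D g * (if g • c = c then (1 : ℂ) else 0) = ∑ h : H, D h := by
    intro c
    obtain ⟨x, rfl⟩ := QuotientGroup.mk_surjective c
    rw [← Equiv.sum_comp (MulAut.conj x).toEquiv (fun g : G => D g * (if g • (x : G ⧸ H) = x then (1 : ℂ) else 0))]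
    have h3 : ∀ g : G, D ((MulAut.conj x).toEquiv g) *
        (if (MulAut.conj x).toEquiv g • (x : G ⧸ H) = x then (1 : ℂ) else 0) = if g ∈ H then D g else 0 := by
      intro g
      have h4 : D ((MulAut.conj x).toEquiv g) = D g := hc g x
      have h5 : (MulAut.conj x).toEquiv g • (x : G ⧸ H) = x ↔ g ∈ H := by
        have h6 : (MulAut.conj x).toEquiv g • (x : G ⧸ H) = ((x * g : G) : G ⧸ H) := by
          change ((x * g * x⁻¹ * x : G) : G ⧸ H) = _
          rw [inv_mul_cancel_right]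
        rw [h6, eq_comm, QuotientGroup.eq, inv_mul_cancel_left]
      rw [h4]
      simp only [h5]
      split_ifs <;> simp
    rw [Finset.sum_congr rfl (fun g _ => h3 g), ← Finset.sum_filter]
    refine (Finset.sum_subtype (Finset.univ.filter (· ∈ H)) (fun g => by simp) D)
  have h3 : ∀ g : G, D g * (fx H g : ℂ) = ∑ c : G ⧸ H, D g * (if g • c = c then (1 : ℂ) else 0) := by
    intro g
    rw [h1, Finset.mul_sum]
  rw [Finset.sum_congr rfl (fun g _ => h3 g), Finset.sum_comm, Finset.sum_congr rfl (fun c _ => h2 c),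
    Finset.sum_const, Finset.card_univ, nsmul_eq_mul, mn_eq, ← Nat.card_eq_fintype_card (α := G ⧸ H),
    Subgroup.card_eq_card_quotient_mul_card_subgroup H]
  have hA : (Nat.card H : ℂ) ≠ 0 := card_ne
  have hB : (Nat.card (G ⧸ H) : ℂ) ≠ 0 := by exact_mod_cast Nat.card_pos.ne'
  push_cast
  field_simp

/-- if the multiplicity is odd, it is odd for a `2`-hyperelementary subgroup -/
theorem exists_hyper {D : G → ℂ} (hD : Virt D) (h : ¬ Ev D ⊤) : ∃ H : Subgroup G, IsHyper 2 H ∧ ¬ Ev D H := by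
  classical
  have : Fintype G := Fintype.ofFinite G
  have : Fintype (Subgroup G) := Fintype.ofFinite _
  by_contra hcon
  push Not at hcon
  apply h
  obtain ⟨m, n, -, hm, hn, hsum⟩ := perm_unit {H : Subgroup G | IsHyper 2 H}
    (fun H hH H' _ => hH.le inf_le_left) (fun H hH x => hH.conj x) {2}
    (fun g => by
      obtain ⟨H, hH, h1⟩ := hyper_count Nat.prime_two g
      exact ⟨H, hH, fun h2 => h1 (h2 ▸ dvd_zero _)⟩)
    (fun g p hp hpp => by
      obtain rfl : p = 2 := hp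
      exact hyper_count Nat.prime_two g)
  have h1 : (m : ℂ) * mn D ⊤ = ∑ H : Subgroup G, (n H : ℂ) * mn D H := by
    have h2 : mn D ⊤ = (Nat.card G : ℂ)⁻¹ * ∑ g, D g := by
      have : Fintype (⊤ : Subgroup G) := Fintype.ofFinite _
      rw [mn_eq, Subgroup.card_top, ← Equiv.sum_comp Subgroup.topEquiv.toEquiv (fun g : G => D g)]
      rfl
    have h3 : ∀ H : Subgroup G, (n H : ℂ) * mn D H = (Nat.card G : ℂ)⁻¹ * ∑ g, D g * ((n H * fx H g : ℤ) : ℂ) := by
      intro H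
      rw [← sum_fx hD.conj H, ← mul_assoc, mul_comm (n H : ℂ), mul_assoc, Finset.mul_sum]
      congr 1
      refine Finset.sum_congr rfl fun g _ => ?_
      push_cast
      ring
    rw [Finset.sum_congr rfl (fun H _ => h3 H), ← Finset.mul_sum, Finset.sum_comm, h2, ← mul_assoc,
      mul_comm (m : ℂ), mul_assoc, Finset.mul_sum]
    congr 1
    refine Finset.sum_congr rfl fun g _ => ?_
    rw [← Finset.mul_sum]
    have h4 := hsum g
    rw [finsum_eq_sum_of_fintype] at h4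
    have h5 : ∑ H : Subgroup G, ((n H * fx H g : ℤ) : ℂ) = m := by
      rw [← Int.cast_sum, h4]
      simp
    rw [h5]
    ring
  have h2 : ∀ H : Subgroup G, ∃ z : ℤ, (n H : ℂ) * mn D H = 2 * z := by
    intro H
    by_cases hH : IsHyper 2 H
    · obtain ⟨z, hz⟩ := hcon H hH
      refine ⟨n H * z, ?_⟩
      rw [hz]
      push_cast
      ring
    · refine ⟨0, ?_⟩
      rw [hn H hH]
      simp
  choose z hz using h2
  obtain ⟨t, ht⟩ := mn_int hD ⊤
  have h3 : (m : ℤ) * t = 2 * ∑ H, z H := by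
    have h4 : ((m : ℤ) * t : ℂ) = 2 * ∑ H, (z H : ℂ) := by
      rw [Finset.mul_sum, ← Finset.sum_congr rfl (fun H _ => hz H), ← h1, ht]
      push_cast
      ring
    exact_mod_cast h4
  have h4 : (2 : ℤ) ∣ (m : ℤ) * t := ⟨_, h3⟩
  have h5 : ¬ (2 : ℤ) ∣ (m : ℤ) := by
    intro h6
    exact hm 2 rfl Nat.prime_two (by exact_mod_cast h6)
  rcases Int.prime_two.dvd_or_dvd h4 with h6 | ⟨w, hw⟩
  · exact absurd h6 h5
  · refine ⟨w, ?_⟩
    rw [ht, hw]
    push_cast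
    ring

/-- minimal subgroups with odd multiplicity -/
theorem exists_crit {D : G → ℂ} (hD : Virt D) (h : ¬ Ev D ⊤) :
    ∃ U : Subgroup G, IsHyper 2 U ∧ ¬ Ev D U ∧ ∀ V < U, Ev D V := by
  obtain ⟨H, hH1, hH2⟩ := exists_hyper hD h
  have hfin : {U : Subgroup G | IsHyper 2 U ∧ ¬ Ev D U}.Finite := Set.toFinite _
  obtain ⟨U, hU⟩ := hfin.exists_minimal ⟨H, hH1, hH2⟩
  refine ⟨U, hU.1.1, hU.1.2, fun V hV => ?_⟩
  by_contra hcon
  exact hV.not_ge (hU.2 ⟨hU.1.1.le hV.le, hcon⟩ hV.le)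

/-- multiplicities for a subgroup of a subgroup -/
lemma mn_map (D : G → ℂ) (U : Subgroup G) (V : Subgroup U) :
    mn (fun u : U => D u) V = mn D (V.map U.subtype) := by
  classical
  have : Fintype V := Fintype.ofFinite V
  have : Fintype (V.map U.subtype : Subgroup G) := Fintype.ofFinite _
  rw [mn_eq, mn_eq]
  have e := V.equivMapOfInjective U.subtype U.subtype_injective
  rw [Nat.card_congr e.toEquiv]
  congr 1
  rw [← Equiv.sum_comp (V.equivMapOfInjective U.subtype U.subtype_injective).toEquiv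
    (fun h : (V.map U.subtype : Subgroup G) => D h)]
  rfl

/-- the `q`-part of the cyclic subgroup -/
lemma q_part {C : Subgroup G} (hC : IsCyclic C) (hcop : (Nat.card C).Coprime 2)
    (hnorm : ∀ h : G, ∀ c ∈ C, h * c * h⁻¹ ∈ C) (hpow : ∀ h : G, ∃ k : ℕ, h ^ 2 ^ k ∈ C)
    {q : ℕ} (hq : q.Prime) (hq2 : q ≠ 2) :
    ∃ (Q : Subgroup G) (r : ℕ), Q ≤ C ∧ Q.Normal ∧ Nat.Coprime (Nat.card Q) Q.index ∧ Nat.card Q = q ^ r ∧
      ∀ c : G, c ^ q = 1 → c ∈ Q := by
  classical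
  have : Fact q.Prime := ⟨hq⟩
  have hcomm : ∀ x ∈ C, ∀ y ∈ C, x * y = y * x := by
    intro x hx y hy
    have hc : Std.Commutative (fun a b : C => a * b) := ⟨fun a b => by
      obtain ⟨g, hg⟩ := hC.exists_generator
      obtain ⟨i, rfl⟩ := hg a
      obtain ⟨j, rfl⟩ := hg b
      change g ^ i * g ^ j = g ^ j * g ^ i
      rw [← zpow_add, ← zpow_add, add_comm]⟩
    exact congrArg Subtype.val (hc.comm ⟨x, hx⟩ ⟨y, hy⟩)
  -- elements of q-power order lie in C
  have hmem : ∀ (x : G) (r : ℕ), x ^ q ^ r = 1 → x ∈ C := by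
    intro x r hx
    obtain ⟨k, hk⟩ := hpow x
    have hc : Nat.Coprime (2 ^ k) (q ^ r) := Nat.Coprime.pow _ _ ((Nat.coprime_primes Nat.prime_two hq).mpr (Ne.symm hq2))
    have h1 : x ∈ Subgroup.zpowers (x ^ 2 ^ k) := by
      have h2 := Nat.gcd_eq_gcd_ab (2 ^ k) (q ^ r)
      rw [hc] at h2
      refine ⟨Nat.gcdA (2 ^ k) (q ^ r), ?_⟩
      change (x ^ 2 ^ k) ^ (Nat.gcdA (2 ^ k) (q ^ r)) = x
      have h3 : x ^ ((1 : ℕ) : ℤ) = x := by simp
      rw [← zpow_natCast x (2 ^ k), ← zpow_mul]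
      have h4 : ((2 ^ k : ℕ) : ℤ) * Nat.gcdA (2 ^ k) (q ^ r) = ((1 : ℕ) : ℤ) - ((q ^ r : ℕ) : ℤ) * Nat.gcdB (2 ^ k) (q ^ r) := by
        linarith
      rw [h4, zpow_sub, zpow_mul, zpow_natCast x (q ^ r), hx, one_zpow, inv_one, mul_one, h3]
    exact (Subgroup.zpowers_le.mpr hk) h1
  let Q : Subgroup G :=
    { carrier := {x | x ∈ C ∧ ∃ r : ℕ, x ^ q ^ r = 1}
      mul_mem' := by
        rintro x y ⟨hx, r, hr⟩ ⟨hy, t, ht⟩
        refine ⟨C.mul_mem hx hy, r + t, ?_⟩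
        have h1 : Commute x y := hcomm x hx y hy
        rw [h1.mul_pow, pow_add, pow_mul, hr, one_pow, one_mul, mul_comm (q ^ r), pow_mul, ht, one_pow]
      one_mem' := ⟨C.one_mem, 0, by simp⟩
      inv_mem' := by
        rintro x ⟨hx, r, hr⟩
        exact ⟨C.inv_mem hx, r, by rw [inv_pow, hr, inv_one]⟩ }
  have hQ : ∀ x, x ∈ Q ↔ x ∈ C ∧ ∃ r : ℕ, x ^ q ^ r = 1 := fun x => Iff.rfl
  have hp : IsPGroup q Q := by
    rintro ⟨x, hx⟩
    obtain ⟨-, r, hr⟩ := hx
    exact ⟨r, Subtype.ext hr⟩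
  obtain ⟨P, hP⟩ := hp.exists_le_sylow
  have hPQ : (P : Subgroup G) ≤ Q := by
    intro x hx
    obtain ⟨r, hr⟩ := P.isPGroup' ⟨x, hx⟩
    have hr' : x ^ q ^ r = 1 := congrArg Subtype.val hr
    exact ⟨hmem x r hr', r, hr'⟩
  have heq : Q = (P : Subgroup G) := le_antisymm hP hPQ
  obtain ⟨r, hr⟩ := (IsPGroup.iff_card).mp hp
  refine ⟨Q, r, fun x hx => hx.1, ⟨?_⟩, ?_, hr, ?_⟩
  · rintro x ⟨hx, t, ht⟩ g
    refine ⟨hnorm g x hx, t, ?_⟩
    rw [conj_pow, ht, mul_one, mul_inv_cancel]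
  · rw [heq]
    exact P.card_coprime_index
  · intro c hc
    exact ⟨hmem c 1 (by rw [pow_one, hc]), 1, by rw [pow_one, hc]⟩

/-- the conjugation action of a critical group on its elements of odd prime order -/
lemma crit_aux {D : G → ℂ} (hD : Virt D) (hU : IsHyper 2 (⊤ : Subgroup G)) (h1 : ¬ Ev D ⊤)
    (h2 : ∀ V : Subgroup G, V < ⊤ → Ev D V) {q : ℕ} (hq : q.Prime) (hq2 : q ≠ 2) (hqG : q ∣ Nat.card G)
    {k s : ℕ} (hDk : ∀ g, D (g ^ k) = D g) (hs : k ^ 2 ^ s ≡ 1 [MOD Nat.card G]) :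
    ∃ u : G, ∀ c : G, c ^ q = 1 → u * c * u⁻¹ = c ^ k := by
  classical
  have : Fact q.Prime := ⟨hq⟩
  obtain ⟨C, -, hC, hcop, hnorm, hpow⟩ := hU
  have hnorm' : ∀ h : G, ∀ c ∈ C, h * c * h⁻¹ ∈ C := fun h => hnorm h (mem_top h)
  obtain ⟨Q, r, hQC, hQn, hcopQ, hcard, hQq⟩ := q_part hC hcop hnorm' (fun h => hpow h (mem_top h)) hq hq2
  obtain ⟨H, hH⟩ := Subgroup.exists_right_complement'_of_coprime hcopQ
  have hHtop : H ⊔ Q = ⊤ := by
    rw [sup_comm]
    exact hH.sup_eq_top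
  have hHne : H < ⊤ := by
    refine lt_top_iff_ne_top.mpr fun h => ?_
    obtain ⟨x, hx⟩ := exists_prime_orderOf_dvd_card' q hqG
    have h3 : x ∈ Q := hQq x (by rw [← hx]; exact pow_orderOf_eq_one x)
    have h4 : x ∈ Q ⊓ H := ⟨h3, h ▸ mem_top x⟩
    rw [hH.disjoint.eq_bot, Subgroup.mem_bot] at h4
    rw [h4, orderOf_one] at hx
    exact hq.one_lt.ne hx
  have hcomm : ⁅Q, Q⁆ ≤ H := by
    rw [Subgroup.commutator_le]
    intro x hx y hy
    have hx' := hQC hx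
    have hy' := hQC hy
    obtain ⟨g, hg⟩ := hC.exists_generator
    obtain ⟨i, hi⟩ := hg ⟨x, hx'⟩
    obtain ⟨j, hj⟩ := hg ⟨y, hy'⟩
    have h3 : x * y = y * x := by
      have h4 : (⟨x, hx'⟩ : C) * ⟨y, hy'⟩ = ⟨y, hy'⟩ * ⟨x, hx'⟩ := by
        rw [← hi, ← hj]
        change g ^ i * g ^ j = g ^ j * g ^ i
        rw [← zpow_add, ← zpow_add, add_comm]
      exact congrArg Subtype.val h4
    rw [commutatorElement_def, h3]
    have h5 : y * x * x⁻¹ * y⁻¹ = 1 := by group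
    rw [h5]
    exact H.one_mem
  have hnot : ¬ ∀ μ : Q →* ℂˣ, Tr Q H μ → (∃ h ∈ H, μ ^ k = cmu h μ) → μ = 1 := by
    intro hfix
    have h3 := core Q H hD hcomm k s hDk hs hfix
    rw [hHtop] at h3
    exact h1 (Ev.of_sub h3 (h2 H hHne))
  push Not at hnot
  obtain ⟨μ, -, ⟨h, -, hh⟩, hne⟩ := hnot
  refine ⟨h⁻¹, ?_⟩
  have hCn : C.Normal := ⟨fun c hc g => hnorm' g c hc⟩
  obtain ⟨t, ht⟩ := MonoidHom.map_cyclic ((MulAut.conjNormal h⁻¹ : MulAut C).toMonoidHom)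
  have ht' : ∀ c ∈ C, h⁻¹ * c * h = c ^ t := by
    intro c hc
    have h3 := congrArg Subtype.val (ht ⟨c, hc⟩)
    have h4 : (((MulAut.conjNormal h⁻¹ : MulAut C).toMonoidHom ⟨c, hc⟩ : C) : G) = h⁻¹ * c * h := by
      change ((MulAut.conjNormal h⁻¹ ⟨c, hc⟩ : C) : G) = _
      rw [MulAut.conjNormal_apply, inv_inv]
    rw [h4] at h3
    rw [h3]
    rfl
  -- the congruence
  have hdvd : (q : ℤ) ∣ t - k := by
    by_contra hnd
    apply hne
    ext x
    have hcop1 : IsCoprime (t - k : ℤ) ((q ^ r : ℕ) : ℤ) := by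
      push_cast
      refine IsCoprime.pow_right ?_
      exact ((Nat.prime_iff_prime_int.mp hq).coprime_iff_not_dvd.mpr hnd).symm
    obtain ⟨a, b, hab⟩ := hcop1
    have h3 : μ x ^ (t - k : ℤ) = 1 := by
      have h4 := DFunLike.congr_fun hh x
      rw [MonoidHom.pow_apply, cmu_apply] at h4
      have h5 : (MulAut.conjNormal h⁻¹ x : Q) = x ^ t := by
        apply Subtype.ext
        rw [MulAut.conjNormal_apply, inv_inv]
        exact ht' x (hQC x.2)
      rw [h5, map_zpow] at h4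
      rw [zpow_sub, ← h4, zpow_natCast, mul_inv_cancel]
    have h4 : μ x ^ ((q ^ r : ℕ) : ℤ) = 1 := by
      rw [zpow_natCast, ← map_pow, ← hcard, pow_card_eq_one', map_one]
    have h5 : μ x = 1 := by
      rw [← zpow_one (μ x), ← hab, zpow_add, mul_comm a, zpow_mul, h3, one_zpow, one_mul, mul_comm b, zpow_mul, h4,
        one_zpow]
    rw [h5]
    rfl
  intro c hc
  rw [inv_inv, ht' c (hQC (hQq c hc))]
  obtain ⟨w, hw⟩ := hdvd
  have h3 : t = k + q * w := by linarith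
  rw [h3, zpow_add, zpow_mul, zpow_natCast, zpow_natCast, hc, one_zpow, mul_one]

/-- **Critical subgroups.** -/
theorem crit {D : G → ℂ} (hD : Virt D) (h : ¬ Ev D ⊤) :
    ∃ U : Subgroup G, IsHyper 2 U ∧ ¬ Ev D U ∧ (∀ V < U, Ev D V) ∧
      ∀ k : ℕ, Nat.Coprime (Nat.card G) k → (∀ g, D (g ^ k) = D g) → ∀ q : ℕ, q.Prime → q ≠ 2 → q ∣ Nat.card U →
        ∃ m, Odd m ∧ ∃ u ∈ U, ∀ c ∈ U, c ^ q = 1 → u * c * u⁻¹ = c ^ k ^ m := by
  obtain ⟨U, hU, hodd, hmin⟩ := exists_crit hD h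
  refine ⟨U, hU, hodd, hmin, fun k hk hDk q hq hq2 hqU => ?_⟩
  obtain ⟨m, hm, s, hs⟩ := odd_part Nat.card_pos hk
  refine ⟨m, hm, ?_⟩
  have h1 : ∀ V : Subgroup U, Ev (fun u : U => D u) V ↔ Ev D (V.map U.subtype) := by
    intro V
    unfold Ev
    rw [mn_map]
  have hU' : IsHyper 2 (⊤ : Subgroup U) := by
    obtain ⟨C, hCU, hC, hcop, hnorm, hpow⟩ := hU
    have e := Subgroup.subgroupOfEquivOfLe hCU
    refine ⟨C.subgroupOf U, le_top, ?_, ?_, ?_, ?_⟩
    · exact isCyclic_of_surjective e.symm.toMonoidHom e.symm.surjective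
    · rw [Nat.card_congr e.toEquiv]
      exact hcop
    · intro x _ c hc
      exact hnorm x x.2 c hc
    · intro x _
      obtain ⟨j, hj⟩ := hpow x x.2
      exact ⟨j, hj⟩
  have htop : (⊤ : Subgroup U).map U.subtype = U := by
    rw [← MonoidHom.range_eq_map, Subgroup.range_subtype]
  obtain ⟨u, hu⟩ := crit_aux (G := U) (D := fun u : U => D u) (hD.comp U.subtype) hU'
    (by rw [h1, htop]; exact hodd)
    (fun V hV => by
      rw [h1]
      apply hmin
      have h2 : V.map U.subtype < (⊤ : Subgroup U).map U.subtype :=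
        (Subgroup.map_lt_map_iff_of_injective U.subtype_injective).mpr hV
      rwa [htop] at h2) hq hq2 hqU (k := k ^ m) (s := s)
    (fun g => by
      change D ((g ^ k ^ m : U) : G) = D g
      rw [SubmonoidClass.coe_pow]
      exact D_pow hDk m g)
    (hs.of_dvd (Subgroup.card_subgroup_dvd_card U))
  refine ⟨u, u.2, fun c hc hcq => ?_⟩
  have h2 := hu ⟨c, hc⟩ (Subtype.ext hcq)
  exact congrArg Subtype.val h2

end Run7.h988.PY
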