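import Mathlib
import Pool.Agent.Run7.h988.PY.Crit
import Pool.Agent.Helper606_LC.Aut

/-!
# Ranks, root numbers and multiplicities
-/

set_option autoImplicit false
set_option linter.unusedSectionVars false

namespace Run7.h988.PY

open Pool.Agent.R389 Pool.Agent.H302R2 Pool.Agent.H302R3 Pool.Agent.H541R3.ART Pool.Agent.W446.AS Subgroup
open Run7.h988.DR Pool.Agent.R433.MD

variable {G : Type} [Group G] [Finite G]

section rk

variable {E V : Type} [Field E] [AddCommGroup V] [Module E V] [FiniteDimensional E V]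

/-- the dimension of the invariants -/
noncomputable def rk (ρ : Representation E G V) (H : Subgroup G) : ℕ :=
  Module.finrank E (Representation.invariants (ρ.comp H.subtype))

lemma rk_eq (τ : E →+* ℂ) (ρ : Representation E G V) (H : Subgroup G) :
    mn (fun g => τ (ρ.character g)) H = rk ρ H := by
  classical
  have : Fintype H := Fintype.ofFinite H
  have hE : CharZero E := ⟨fun a b h => by
    have h1 := congrArg τ h
    rw [map_natCast, map_natCast] at h1
    exact_mod_cast h1⟩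
  have : Invertible (Nat.card H : E) := invertibleOfNonzero (by exact_mod_cast Nat.card_pos.ne')
  have h := FDRep.average_char_eq_finrank_invariants (FDRep.of (ρ.comp H.subtype))
  have h1 := congrArg τ h
  rw [map_mul, map_inv₀, map_natCast, map_sum, map_natCast] at h1
  rw [mn_eq]
  exact h1

lemma virt_char (τ : E →+* ℂ) (ρ : Representation E G V) : Virt (fun g => τ (ρ.character g)) :=
  virt_of_closure (base_change τ ρ)

end rk

/-- the `k`-th power of a character -/
lemma irr_npow {k : ℕ} (hk : Nat.Coprime (Nat.card G) k) {χ : G → ℂ} (hχ : χ ∈ Irr G) :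
    (fun g => χ (g ^ k)) ∈ Irr G := by
  have h1 := Pool.Agent.Helper606_LC.irr_pw (G := G) (N := Nat.card G) Nat.card_pos dvd_rfl
    (ZMod.unitOfCoprime k hk.symm) hχ
  have h2 : Pool.Agent.Helper606_LC.pw (ZMod.unitOfCoprime k hk.symm) χ = fun g => χ (g ^ k) := by
    funext g
    change χ (g ^ ((ZMod.unitOfCoprime k hk.symm : (ZMod (Nat.card G))ˣ) : ZMod (Nat.card G)).val) = _
    rw [ZMod.coe_unitOfCoprime, ZMod.val_natCast, ← pow_eq_pow_mod _ (pow_card_eq_one' (x := g))]
  rwa [h2] at h1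

lemma npow_bij {k : ℕ} (hk : Nat.Coprime (Nat.card G) k) : Function.Bijective (fun g : G => g ^ k) :=
  (powCoprime hk).bijective

/-- rational characters -/
lemma rat_pow {V : Type} [AddCommGroup V] [Module ℚ V] [FiniteDimensional ℚ V] (τ : ℚ →+* ℂ)
    (ρ : Representation ℚ G V) {k : ℕ} (hk : Nat.Coprime (Nat.card G) k) (g : G) :
    τ (ρ.character (g ^ k)) = τ (ρ.character g) := by
  obtain ⟨σ, hσ⟩ := Pool.Agent.Helper606_LC.exists_aut_pow (N := Nat.card G) Nat.card_pos
    (ZMod.unitOfCoprime k hk.symm)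
  have h1 : ∀ f ∈ AddSubmonoid.closure (Irr G), ∀ g : G, σ (f g) = f (g ^ k) := by
    intro f hf
    induction hf using AddSubmonoid.closure_induction with
    | mem χ hχ =>
      intro g
      rw [Pool.Agent.Helper606_LC.irr_pow Nat.card_pos hσ hχ pow_card_eq_one', ZMod.coe_unitOfCoprime,
        ZMod.val_natCast, ← pow_eq_pow_mod _ (pow_card_eq_one' (x := g))]
    | zero => intro g; simp
    | add a b _ _ ha hb => intro g; rw [Pi.add_apply, Pi.add_apply, map_add, ha, hb]
  have h2 := h1 _ (base_change τ ρ) g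
  rw [← h2]
  have h3 : (σ : ℂ →+* ℂ).comp τ = τ := Subsingleton.elim _ _
  exact RingHom.congr_fun h3 _

section root

variable (w : (G → ℂ) → ℂ)

/-- real characters -/
def IsRe (χ : G → ℂ) : Prop := ∀ g, (starRingEnd ℂ) (χ g) = χ g

open Classical in
/-- the real irreducible characters with root number `-1` -/
noncomputable def Sw : Finset (G → ℂ) := (irrF G).filter (fun χ => IsRe χ ∧ w χ = -1)

/-- their sum -/
noncomputable def Dw : G → ℂ := fun g => ∑ χ ∈ Sw w, χ g

lemma mem_Sw {χ : G → ℂ} : χ ∈ Sw w ↔ χ ∈ Irr G ∧ IsRe χ ∧ w χ = -1 := by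
  classical
  rw [Sw, Finset.mem_filter, mem_irrF]

lemma virt_Dw : Virt (Dw w) := by
  classical
  have h1 : Dw w = ∑ χ ∈ Sw w, χ := by
    funext g
    rw [Dw, Finset.sum_apply]
  rw [h1]
  exact sum_mem fun χ hχ => AddSubgroup.subset_closure ((mem_Sw w).mp hχ).1

lemma Dw_pow {k : ℕ} (hk : Nat.Coprime (Nat.card G) k)
    (gal : ∀ χ ∈ Irr G, IsRe χ → w (fun g => χ (g ^ k)) = w χ) (g : G) : Dw w (g ^ k) = Dw w g := by
  classical
  let ψ : (G → ℂ) → (G → ℂ) := fun χ g => χ (g ^ k)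
  have hinj : Function.Injective ψ := by
    intro a b h
    funext g
    obtain ⟨x, rfl⟩ := (npow_bij hk).surjective g
    exact congrFun h x
  have hmem : (Sw w).image ψ ⊆ Sw w := by
    intro χ hχ
    obtain ⟨η, hη, rfl⟩ := Finset.mem_image.mp hχ
    obtain ⟨h1, h2, h3⟩ := (mem_Sw w).mp hη
    exact (mem_Sw w).mpr ⟨irr_npow hk h1, fun g => h2 _, by rw [← h3]; exact gal η h1 h2⟩
  have heq : (Sw w).image ψ = Sw w :=
    Finset.eq_of_subset_of_card_le hmem (Finset.card_image_of_injective _ hinj).ge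
  have h1 : ∑ χ ∈ (Sw w).image ψ, χ g = Dw w g := by rw [heq, Dw]
  rw [← h1, Finset.sum_image (fun a _ b _ h => hinj h), Dw]

/-- the multiplicity of the trivial character in an irreducible character is a natural number -/
lemma mn_nat {χ : G → ℂ} (hχ : χ ∈ Irr G) (H : Subgroup G) : ∃ n : ℕ, mn χ H = n := by
  obtain ⟨n, ρ, -, rfl⟩ := hχ
  exact ⟨_, rk_eq (RingHom.id ℂ) ρ H⟩

lemma irr_conj {χ : G → ℂ} (hχ : χ ∈ Irr G) : (fun g => (starRingEnd ℂ) (χ g)) ∈ Irr G :=
  Pool.Agent.Helper606_LC.irr_aut (starRingAut (R := ℂ)) hχ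

/-- the root number over an intermediate field -/
lemma prod_w (dual : ∀ χ ∈ Irr G, w χ * w (fun g => (starRingEnd ℂ) (χ g)) = 1) (H : Subgroup G)
    (m : (G → ℂ) → ℕ) (hm : ∀ χ ∈ Irr G, (m χ : ℂ) = mn χ H) :
    ∏ᶠ χ ∈ Irr G, w χ ^ m χ = (-1) ^ (∑ χ ∈ Sw w, m χ) := by
  classical
  rw [finprod_irr (fun χ => w χ ^ m χ), ← Finset.prod_filter_mul_prod_filter_not (irrF G) (fun χ => IsRe χ)]
  have h1 : ∏ χ ∈ (irrF G).filter (fun χ => ¬ IsRe χ), w χ ^ m χ = 1 := by
    refine Finset.prod_involution (fun χ _ g => (starRingEnd ℂ) (χ g)) ?_ ?_ ?_ ?_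
    · intro χ hχ
      have hχ' := mem_irrF.mp (Finset.mem_filter.mp hχ).1
      have h2 : m (fun g => (starRingEnd ℂ) (χ g)) = m χ := by
        have h3 : ((m (fun g => (starRingEnd ℂ) (χ g)) : ℕ) : ℂ) = (m χ : ℕ) := by
          rw [hm _ (irr_conj hχ')]
          have h4 : mn (fun g => (starRingEnd ℂ) (χ g)) H = (starRingEnd ℂ) (mn χ H) := by
            have : Fintype H := Fintype.ofFinite H
            rw [mn_eq, mn_eq, map_mul, map_inv₀, map_natCast, map_sum]
          rw [h4, ← hm χ hχ', map_natCast]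
        exact_mod_cast h3
      rw [h2, ← mul_pow, dual χ hχ', one_pow]
    · intro χ hχ _ h
      exact (Finset.mem_filter.mp hχ).2 (fun g => congrFun h g)
    · intro χ hχ
      obtain ⟨h2, h3⟩ := Finset.mem_filter.mp hχ
      refine Finset.mem_filter.mpr ⟨mem_irrF.mpr (irr_conj (mem_irrF.mp h2)), fun h => h3 fun g => ?_⟩
      have h4 := h g
      rw [Complex.conj_conj] at h4
      exact h4.symm
    · intro χ _
      funext g
      exact Complex.conj_conj _
  rw [h1, mul_one]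
  have h2 : ∀ χ ∈ (irrF G).filter (fun χ => IsRe χ), w χ ^ m χ = if w χ = -1 then (-1) ^ m χ else 1 := by
    intro χ hχ
    obtain ⟨h2, h3⟩ := Finset.mem_filter.mp hχ
    have h4 := dual χ (mem_irrF.mp h2)
    have h5 : (fun g => (starRingEnd ℂ) (χ g)) = χ := funext h3
    rw [h5] at h4
    split_ifs with h6
    · rw [h6]
    · rcases mul_self_eq_one_iff.mp h4 with h7 | h7
      · rw [h7, one_pow]
      · exact absurd h7 h6
  rw [Finset.prod_congr rfl h2, ← Finset.prod_filter, Finset.filter_filter, Finset.prod_pow_eq_pow_sum]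
  rfl

lemma mn_Dw (H : Subgroup G) (m : (G → ℂ) → ℕ) (hm : ∀ χ ∈ Irr G, (m χ : ℂ) = mn χ H) :
    mn (Dw w) H = ((∑ χ ∈ Sw w, m χ : ℕ) : ℂ) := by
  classical
  have : Fintype H := Fintype.ofFinite H
  rw [mn_eq]
  simp only [Dw]
  rw [Finset.sum_comm, Finset.mul_sum]
  push_cast
  refine Finset.sum_congr rfl fun χ hχ => ?_
  rw [hm χ ((mem_Sw w).mp hχ).1, mn_eq]

end root

lemma mn_add (a b : G → ℂ) (H : Subgroup G) : mn (fun g => a g + b g) H = mn a H + mn b H := by
  classical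
  have : Fintype H := Fintype.ofFinite H
  rw [mn_eq, mn_eq, mn_eq, Finset.sum_add_distrib, mul_add]

/-- the parity of a rank and the root number -/
lemma parity {E V : Type} [Field E] [AddCommGroup V] [Module E V] [FiniteDimensional E V] (τ : E →+* ℂ)
    (ρ : Representation E G V) (w : (G → ℂ) → ℂ)
    (dual : ∀ χ ∈ Irr G, w χ * w (fun g => (starRingEnd ℂ) (χ g)) = 1) (H : Subgroup G) (W : ℂ)
    (hW : ∀ m : (G → ℂ) → ℕ, (∀ χ ∈ Irr G, (m χ : ℂ) = mn χ H) → W = ∏ᶠ χ ∈ Irr G, w χ ^ m χ) :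
    (-1) ^ rk ρ H = W ↔ Ev (fun g => τ (ρ.character g) + Dw w g) H := by
  classical
  let m : (G → ℂ) → ℕ := fun χ => if h : χ ∈ Irr G then (mn_nat h H).choose else 0
  have hm : ∀ χ ∈ Irr G, (m χ : ℂ) = mn χ H := by
    intro χ hχ
    simp only [m, dif_pos hχ]
    exact (mn_nat hχ H).choose_spec.symm
  rw [hW m hm, prod_w w dual H m hm, Ev, mn_add, rk_eq, mn_Dw w H m hm]
  set s := ∑ χ ∈ Sw w, m χ
  constructor
  · intro h
    have h1 : ((-1 : ℂ)) ^ (rk ρ H + s) = 1 := by
      rw [pow_add, h, ← pow_add, ← two_mul, pow_mul]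
      norm_num
    have h2 : Even (rk ρ H + s) := by
      by_contra hcon
      rw [Nat.not_even_iff_odd] at hcon
      rw [hcon.neg_one_pow] at h1
      norm_num at h1
    obtain ⟨z, hz⟩ := h2
    refine ⟨z, ?_⟩
    have h3 : ((rk ρ H + s : ℕ) : ℂ) = ((z + z : ℕ) : ℂ) := by rw [hz]
    push_cast at h3 ⊢
    linear_combination h3
  · rintro ⟨z, hz⟩
    have h1 : Even (rk ρ H + s) := by
      have h2 : ((rk ρ H + s : ℕ) : ℤ) = 2 * z := by
        have h3 : (((rk ρ H + s : ℕ) : ℤ) : ℂ) = ((2 * z : ℤ) : ℂ) := by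
          push_cast at hz ⊢
          exact hz
        exact_mod_cast h3
      have h3 : Even ((rk ρ H + s : ℕ) : ℤ) := by
        rw [h2]
        exact even_two_mul z
      exact_mod_cast h3
    have h2 : ((-1 : ℂ)) ^ (rk ρ H + s) = 1 := h1.neg_one_pow
    rw [pow_add] at h2
    have h3 : ((-1 : ℂ)) ^ s * (-1) ^ s = 1 := by
      rw [← pow_add, ← two_mul, pow_mul]
      norm_num
    calc ((-1 : ℂ)) ^ rk ρ H = (-1) ^ rk ρ H * ((-1) ^ s * (-1) ^ s) := by rw [h3, mul_one]
      _ = ((-1) ^ rk ρ H * (-1) ^ s) * (-1) ^ s := by ring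
      _ = (-1) ^ s := by rw [h2, one_mul]

end Run7.h988.PY
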