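import Mathlib
import Pool.Agent.Run7.h988.PY.Data

/-!
# Parities: abelian base fields and `2`-extensions
-/

set_option autoImplicit false
set_option linter.unusedSectionVars false

namespace Run7.h988.PY

open Pool.Agent.R389 Pool.Agent.H302R2 Pool.Agent.H302R3 Pool.Agent.H541R3.ART Pool.Agent.W446.AS Subgroup
open Run7.h988.DR Pool.Agent.R433.MD

variable {G : Type} [Group G] [Finite G]

lemma mn_top (D : G → ℂ) [Fintype G] : mn D ⊤ = (Nat.card G : ℂ)⁻¹ * ∑ g, D g := by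
  have : Fintype (⊤ : Subgroup G) := Fintype.ofFinite _
  rw [mn_eq, Subgroup.card_top, ← Equiv.sum_comp Subgroup.topEquiv.toEquiv (fun g : G => D g)]
  rfl

/-- the multiplicity of a quadratic character -/
lemma quad_part (D : G → ℂ) (μ : (⊤ : Subgroup G) →* ℂˣ) (hne : μ ≠ 1) (h2 : ∀ x, μ x * μ x = 1) :
    ∃ V : Subgroup G, V.index = 2 ∧ part ⊤ μ D 1 = mn D V - mn D ⊤ := by
  classical
  have : Fintype G := Fintype.ofFinite G
  have : Fintype (⊤ : Subgroup G) := Fintype.ofFinite _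
  let ν : G →* ℂˣ := μ.comp (Subgroup.topEquiv (G := G)).symm.toMonoidHom
  have hν : ∀ x : G, ν x = μ ⟨x, mem_top x⟩ := fun x => rfl
  have hval : ∀ x : G, ((ν x : ℂˣ) : ℂ) = 1 ∨ ((ν x : ℂˣ) : ℂ) = -1 := by
    intro x
    have h3 := congrArg Units.val (h2 ⟨x, mem_top x⟩)
    rw [Units.val_mul, Units.val_one] at h3
    exact mul_self_eq_one_iff.mp h3
  have hker : ∀ x : G, x ∈ ν.ker ↔ ((ν x : ℂˣ) : ℂ) = 1 := by
    intro x
    rw [MonoidHom.mem_ker]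
    exact ⟨fun h => by rw [h]; rfl, fun h => Units.ext h⟩
  obtain ⟨a, ha⟩ : ∃ a : G, ((ν a : ℂˣ) : ℂ) = -1 := by
    by_contra hcon
    push Not at hcon
    apply hne
    ext x
    rcases hval x with h | h
    · exact h
    · exact absurd h (hcon x)
  have hind : ν.ker.index = 2 := by
    rw [Subgroup.index_eq_two_iff]
    refine ⟨a, fun b => ?_⟩
    rw [hker, hker, map_mul, Units.val_mul, ha]
    rcases hval b with h | h
    · rw [h]
      right
      norm_num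
    · rw [h]
      left
      norm_num
  refine ⟨ν.ker, hind, ?_⟩
  have hcard : (Nat.card ν.ker : ℂ) * 2 = Nat.card G := by
    have h3 := Subgroup.card_mul_index ν.ker
    rw [hind] at h3
    exact_mod_cast h3
  have : Fintype ν.ker := Fintype.ofFinite _
  have h3 : ∑ v : ν.ker, D v = ∑ g : G, D g * ((1 + ((ν g : ℂˣ) : ℂ)) / 2) := by
    have h4 : ∑ v : ν.ker, D v = ∑ g ∈ Finset.univ.filter (· ∈ ν.ker), D g :=
      (Finset.sum_subtype (Finset.univ.filter (· ∈ ν.ker)) (fun g => by simp) D).symm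
    rw [h4, Finset.sum_filter]
    refine Finset.sum_congr rfl fun g _ => ?_
    rcases hval g with h | h
    · rw [if_pos ((hker g).mpr h), h]
      norm_num
    · rw [if_neg (fun h5 => by rw [(hker g).mp h5] at h; norm_num at h), h]
      norm_num
  have h4 : part ⊤ μ D 1 = (Nat.card G : ℂ)⁻¹ * ∑ g : G, D g * ((ν g : ℂˣ) : ℂ) := by
    rw [part_eq, Subgroup.card_top]
    congr 1
    rw [← Equiv.sum_comp (Subgroup.topEquiv (G := G)).toEquiv (fun g : G => D g * ((ν g : ℂˣ) : ℂ))]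
    refine Finset.sum_congr rfl fun x _ => ?_
    have h5 : (μ x)⁻¹ = μ x := inv_eq_of_mul_eq_one_left (h2 x)
    rw [one_mul, h5]
    rfl
  rw [h4, mn_eq, h3, mn_top, ← hcard]
  have hA : (Nat.card ν.ker : ℂ) ≠ 0 := card_ne
  have h5 : ∑ g : G, D g * ((1 + ((ν g : ℂˣ) : ℂ)) / 2) = (∑ g, D g + ∑ g : G, D g * ((ν g : ℂˣ) : ℂ)) / 2 := by
    rw [← Finset.sum_add_distrib, Finset.sum_div]
    refine Finset.sum_congr rfl fun g _ => ?_
    ring
  rw [h5]
  field_simp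
  ring

/-- the multiplicities for the subgroups containing the commutator subgroup -/
theorem quad_ev {D : G → ℂ} (hD : Virt D) (hinv : ∀ g, D g⁻¹ = D g) (h1 : Ev D ⊤)
    (h2 : ∀ V : Subgroup G, V.index = 2 → Ev D V) (H : Subgroup G) (hH : ⁅(⊤ : Subgroup G), ⊤⁆ ≤ H) : Ev D H := by
  classical
  have hpos : 0 < Nat.card G := Nat.card_pos
  obtain ⟨n, hn⟩ : ∃ n, Nat.card G = n + 1 := ⟨_, (Nat.succ_pred_eq_of_pos hpos).symm⟩
  have hk : n ^ 2 ^ 1 ≡ 1 [MOD Nat.card G] := by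
    rw [hn, pow_one]
    rcases Nat.eq_zero_or_pos n with h | h
    · rw [h]
      exact Nat.modEq_one
    · have h3 : n ^ 2 = 1 + (n + 1) * (n - 1) := by
        obtain ⟨t, rfl⟩ : ∃ t, n = t + 1 := ⟨n - 1, by omega⟩
        simp only [Nat.add_sub_cancel]
        ring
      rw [h3]
      exact (Nat.modEq_iff_dvd' (by omega)).mpr ⟨n - 1, by omega⟩ |>.symm
  have hinv' : ∀ g : G, g ^ n = g⁻¹ := by
    intro g
    rw [eq_inv_iff_mul_eq_one, ← pow_succ, ← hn, pow_card_eq_one']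
  have h3 := core' ⊤ H hD hH n 1 (fun g => by rw [hinv', hinv]) hk (by
    intro μ hne hTr hfix
    obtain ⟨h, -, hh⟩ := hfix
    rw [mem_stb.mp (le_stb μ (mem_top h))] at hh
    have h4 : ∀ x, μ x * μ x = 1 := by
      intro x
      have h5 := DFunLike.congr_fun hh x
      rw [MonoidHom.pow_apply, ← map_pow] at h5
      have h6 : x ^ n = x⁻¹ := by
        apply Subtype.ext
        rw [SubmonoidClass.coe_pow, hinv']
        rfl
      rw [h6, map_inv] at h5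
      calc μ x * μ x = (μ x)⁻¹ * μ x := by rw [h5]
        _ = 1 := inv_mul_cancel _
    obtain ⟨V, hV, h5⟩ := quad_part D μ hne h4
    have h6 : av ⊤ μ D (H ⊓ stb μ) = part ⊤ μ D 1 := by
      have : Fintype (H ⊓ stb μ : Subgroup G) := Fintype.ofFinite _
      rw [av_eq]
      have h7 : ∀ a : (H ⊓ stb μ : Subgroup G), part ⊤ μ D a = part ⊤ μ D 1 := by
        intro a
        have h8 := part_mul_mem ⊤ μ D 1 ⟨a, mem_top _⟩
        rw [one_mul] at h8
        rw [h8, hTr a ⟨mem_top _, a.2.1⟩, Units.val_one, mul_one]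
      rw [Finset.sum_congr rfl (fun a _ => h7 a), Finset.sum_const, Finset.card_univ, nsmul_eq_mul,
        ← Nat.card_eq_fintype_card, inv_mul_cancel_left₀ card_ne]
    obtain ⟨z1, hz1⟩ := h1
    obtain ⟨z2, hz2⟩ := h2 V hV
    refine ⟨z2 - z1, ?_⟩
    rw [h6, h5, hz1, hz2]
    push_cast
    ring)
  obtain ⟨z, hz⟩ := h3
  obtain ⟨z1, hz1⟩ := h1
  rw [sup_top_eq, hz1] at hz
  refine ⟨z + z1, ?_⟩
  push_cast
  linear_combination hz

/-- the tower -/
theorem tower_ev {D : G → ℂ} (hD : Virt D) (N : Subgroup G) [N.Normal] (hsol : Group.IsSolvable N) (a k : ℕ)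
    (ha : ∀ g : G, (∃ b : ℕ, g ^ 2 ^ b = 1) → ∀ n ∈ N, g ^ 2 ^ a * n = n * g ^ 2 ^ a)
    (hk : Nat.Coprime (Nat.card G) k) (hDk : ∀ g, D (g ^ k) = D g)
    (hq : ∀ q : ℕ, q.Prime → q ∣ Nat.card N → 2 ^ (a + 1) ∣ orderOf (k : ZMod q)) (H : Subgroup G) :
    Ev D H ↔ Ev D (H ⊔ N) := by
  obtain ⟨z, hz⟩ := tower hD N hsol a k ha hk hDk hq H
  constructor
  · exact fun h => Ev.of_sub ⟨z, hz⟩ h
  · exact fun h => Ev.of_sub ⟨-z, by push_cast; linear_combination -hz⟩ h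

/-- **Abelian base field.** -/
theorem abelian_base {D : G → ℂ} (hD : Virt D) (N : Subgroup G) [N.Normal] (hsol : Group.IsSolvable N)
    (hab : ⁅(⊤ : Subgroup G), ⊤⁆ ≤ N) (a k : ℕ)
    (ha : ∀ g : G, (∃ b : ℕ, g ^ 2 ^ b = 1) → ∀ n ∈ N, g ^ 2 ^ a * n = n * g ^ 2 ^ a)
    (hk : Nat.Coprime (Nat.card G) k) (hDk : ∀ g, D (g ^ k) = D g) (hinv : ∀ g, D g⁻¹ = D g)
    (hq : ∀ q : ℕ, q.Prime → q ∣ Nat.card N → 2 ^ (a + 1) ∣ orderOf (k : ZMod q))
    (h1 : Ev D ⊤) (h2 : ∀ V : Subgroup G, V.index = 2 → Ev D V) (H : Subgroup G) : Ev D H := by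
  rw [tower_ev hD N hsol a k ha hk hDk hq]
  exact quad_ev hD hinv h1 h2 _ (hab.trans le_sup_right)

/-- **`2`-extensions.** -/
theorem crit_two {D : G → ℂ} (hD : Virt D) (h : ¬ Ev D ⊤) (a : ℕ)
    (ha : ∀ g : G, (∃ b : ℕ, g ^ 2 ^ b = 1) → g ^ 2 ^ a = 1)
    (hΓ : ∀ q : ℕ, q.Prime → q ≠ 2 → q ∣ Nat.card G → ∃ k : ℕ, Nat.Coprime (Nat.card G) k ∧
      (∀ g, D (g ^ k) = D g) ∧ 2 ^ (a + 1) ∣ orderOf (k : ZMod q)) :
    ∃ U : Subgroup G, IsPGroup 2 U ∧ ¬ Ev D U ∧ ∀ V < U, Ev D V := by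
  classical
  obtain ⟨U, -, hodd, hmin, hcrit⟩ := crit hD h
  refine ⟨U, ?_, hodd, hmin⟩
  have : Fact (Nat.Prime 2) := ⟨Nat.prime_two⟩
  rw [IsPGroup.iff_card]
  by_contra hcon
  have hex : ∃ q : ℕ, q.Prime ∧ q ≠ 2 ∧ q ∣ Nat.card U := by
    by_contra hno
    push Not at hno
    apply hcon
    refine ⟨(Nat.card U).primeFactorsList.length, ?_⟩
    refine Nat.eq_prime_pow_of_unique_prime_dvd Nat.card_pos.ne' ?_
    intro d hd hdv
    by_contra hne
    exact hno d hd hne hdv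
  obtain ⟨q, hq, hq2, hqU⟩ := hex
  have : Fact q.Prime := ⟨hq⟩
  obtain ⟨k, hk, hDk, hord⟩ := hΓ q hq hq2 (hqU.trans (Subgroup.card_subgroup_dvd_card U))
  obtain ⟨m, hm, u, hu, huc⟩ := hcrit k hk hDk q hq hq2 hqU
  obtain ⟨⟨c, hc⟩, hcq⟩ := exists_prime_orderOf_dvd_card' q hqU
  have hc1 : c ^ q = 1 := by
    have h3 := pow_orderOf_eq_one (⟨c, hc⟩ : U)
    rw [hcq] at h3
    exact congrArg Subtype.val h3
  have hcord : orderOf c = q := by
    rw [← hcq]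
    exact (Subgroup.orderOf_coe (⟨c, hc⟩ : U))
  have hiter : ∀ j : ℕ, u ^ j * c * (u ^ j)⁻¹ = c ^ (k ^ m) ^ j := by
    intro j
    induction j with
    | zero => simp
    | succ j ih =>
      have h3 : u ^ (j + 1) * c * (u ^ (j + 1))⁻¹ = u * (u ^ j * c * (u ^ j)⁻¹) * u⁻¹ := by
        rw [pow_succ']
        group
      rw [h3, ih, ← conj_pow, huc c hc hc1, ← pow_mul, pow_succ' (k ^ m)]
  obtain ⟨b, c', hc', hbc⟩ := Nat.exists_eq_two_pow_mul_odd (orderOf_pos u).ne'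
  have h3 : (u ^ c') ^ 2 ^ b = 1 := by
    rw [← pow_mul, mul_comm, ← hbc, pow_orderOf_eq_one]
  have h4 := ha (u ^ c') ⟨b, h3⟩
  rw [← pow_mul] at h4
  have h5 := hiter (c' * 2 ^ a)
  rw [h4, one_mul, inv_one, mul_one, ← pow_mul] at h5
  have h6 : c ^ k ^ (m * (c' * 2 ^ a)) = c ^ 1 := by rw [← h5, pow_one]
  have h7 := pow_eq_pow_iff_modEq.mp h6
  rw [hcord] at h7
  have h8 : ((k : ZMod q)) ^ (m * (c' * 2 ^ a)) = 1 := by
    have h9 := (ZMod.natCast_eq_natCast_iff _ _ _).mpr h7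
    push_cast at h9
    exact h9
  have h9 := hord.trans (orderOf_dvd_of_pow_eq_one h8)
  rw [pow_succ, ← mul_assoc, mul_comm (m * c'), Nat.mul_dvd_mul_iff_left (by positivity)] at h9
  exact (Nat.not_even_iff_odd.mpr (hm.mul hc')) (even_iff_two_dvd.mpr h9)

end Run7.h988.PY
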