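import Mathlib

/-!
# Simultaneous primitive roots
-/

set_option autoImplicit false

namespace Run7.h988.PY

/-- a number which is a primitive root modulo every prime divisor of `n` -/
lemma exists_gen (n : ℕ) (hn : n ≠ 0) :
    ∃ k : ℕ, Nat.Coprime n k ∧ ∀ q : ℕ, q.Prime → q ∣ n → orderOf (k : ZMod q) = q - 1 := by
  classical
  have hex : ∀ q : ℕ, ∃ r : ℕ, q.Prime → orderOf (r : ZMod q) = q - 1 := by
    intro q
    by_cases hq : q.Prime
    · have : Fact q.Prime := ⟨hq⟩
      obtain ⟨u, hu⟩ := IsCyclic.exists_generator (α := (ZMod q)ˣ)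
      refine ⟨(u : ZMod q).val, fun _ => ?_⟩
      rw [ZMod.natCast_zmod_val, orderOf_units, orderOf_eq_card_of_forall_mem_zpowers hu,
        Nat.card_eq_fintype_card, ZMod.card_units]
    · exact ⟨0, fun h => absurd h hq⟩
  choose r hr using hex
  obtain ⟨k, hk⟩ := Nat.chineseRemainderOfFinset r id n.primeFactors
    (fun q hq => (Nat.prime_of_mem_primeFactors hq).ne_zero)
    (fun p hp q hq hpq => (Nat.coprime_primes (Nat.prime_of_mem_primeFactors hp) (Nat.prime_of_mem_primeFactors hq)).mpr hpq)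
  have hord : ∀ q : ℕ, q.Prime → q ∣ n → orderOf (k : ZMod q) = q - 1 := by
    intro q hq hqn
    have h1 := hk q (Nat.mem_primeFactors.mpr ⟨hq, hqn, hn⟩)
    have h2 : ((k : ℕ) : ZMod q) = (r q : ℕ) := (ZMod.natCast_eq_natCast_iff _ _ _).mpr h1
    rw [h2]
    exact hr q hq
  refine ⟨k, ?_, hord⟩
  apply Nat.Coprime.symm
  rw [Nat.coprime_iff_gcd_eq_one]
  by_contra hne
  obtain ⟨q, hq, hqd⟩ := Nat.exists_prime_and_dvd hne
  have hqk := hqd.trans (Nat.gcd_dvd_left _ _)
  have hqn := hqd.trans (Nat.gcd_dvd_right _ _)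
  have h1 := hord q hq hqn
  have : Fact q.Prime := ⟨hq⟩
  rw [(ZMod.natCast_eq_zero_iff _ _).mpr hqk] at h1
  have h2 : orderOf (0 : ZMod q) = 0 := by
    rw [orderOf_eq_zero_iff']
    intro m hm
    rw [zero_pow hm.ne']
    exact zero_ne_one
  rw [h2] at h1
  have := hq.two_le
  omega

end Run7.h988.PY
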