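import Mathlib
import Pool.Agent.Run7.h988.PY.Fin
import Pool.Agent.Run7.h988.PY.Gen

/-!
# Parities of ranks and orders of vanishing
-/

set_option autoImplicit false
set_option linter.unusedSectionVars false

namespace Run7.h988.PY

open Pool.Agent.R389 Pool.Agent.H302R2 Pool.Agent.H302R3 Pool.Agent.H541R3.ART Pool.Agent.W446.AS Subgroup
open Run7.h988.DR Pool.Agent.R433.MD

variable {G : Type} [Group G] [Finite G]

lemma neg_zpow_even {a b : ℤ} (h : Even (a - b)) : ((-1 : ℂ)) ^ a = (-1) ^ b := by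
  have h1 : a = (a - b) + b := by ring
  rw [h1, zpow_add₀ (by norm_num), h.neg_one_zpow, one_mul]

lemma even_of_neg_zpow {a b : ℤ} (h : ((-1 : ℂ)) ^ a = (-1) ^ b) : Even (a - b) := by
  by_contra hcon
  rw [Int.not_even_iff_odd] at hcon
  have h1 : ((-1 : ℂ)) ^ (a - b) = 1 := by
    rw [zpow_sub₀ (by norm_num), h, div_self]
    exact zpow_ne_zero _ (by norm_num)
  rw [hcon.neg_one_zpow] at h1
  norm_num at h1

/-- the order of vanishing as an integer -/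
noncomputable def ordz (c : ℂ) (L : ℂ → ℂ) : ℤ := (meromorphicOrderAt L c).untop₀

lemma ordz_eq {c : ℂ} {L : ℂ → ℂ} (h : meromorphicOrderAt L c ≠ ⊤) : meromorphicOrderAt L c = (ordz c L : WithTop ℤ) :=
  (WithTop.coe_untop₀_of_ne_top h).symm

/-- the parities of a rank and of an order of vanishing -/
lemma parity_ord {E V : Type} [Field E] [AddCommGroup V] [Module E V] [FiniteDimensional E V] (τ : E →+* ℂ)
    (ρ : Representation E G V) (L : (G → ℂ) → ℂ → ℂ) (c : ℂ)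
    (hL : ∀ χ ∈ Irr G, MeromorphicAt (L χ) c ∧ meromorphicOrderAt (L χ) c ≠ ⊤)
    (dual : ∀ χ ∈ Irr G, meromorphicOrderAt (L (fun g => (starRingEnd ℂ) (χ g))) c = meromorphicOrderAt (L χ) c)
    (H : Subgroup G) (LH : ℂ → ℂ)
    (hLH : ∀ m : (G → ℂ) → ℕ, (∀ χ ∈ Irr G, (m χ : ℂ) = mn χ H) → LH = fun s => ∏ᶠ χ ∈ Irr G, L χ s ^ m χ) :
    (∃ z : ℤ, meromorphicOrderAt LH c = z ∧ Even (z - rk ρ H)) ↔
      Ev (fun g => τ (ρ.character g) + Dw (fun χ => (-1) ^ ordz c (L χ)) g) H := by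
  classical
  let m : (G → ℂ) → ℕ := fun χ => if h : χ ∈ Irr G then (mn_nat h H).choose else 0
  have hm : ∀ χ ∈ Irr G, (m χ : ℂ) = mn χ H := by
    intro χ hχ
    simp only [m, dif_pos hχ]
    exact (mn_nat hχ H).choose_spec.symm
  let w : (G → ℂ) → ℂ := fun χ => (-1) ^ ordz c (L χ)
  have hdual : ∀ χ ∈ Irr G, w χ * w (fun g => (starRingEnd ℂ) (χ g)) = 1 := by
    intro χ hχ
    have h1 : ordz c (L (fun g => (starRingEnd ℂ) (χ g))) = ordz c (L χ) := by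
      rw [ordz, ordz, dual χ hχ]
    change ((-1 : ℂ)) ^ ordz c (L χ) * (-1) ^ ordz c (L (fun g => (starRingEnd ℂ) (χ g))) = 1
    rw [h1, ← zpow_add₀ (by norm_num)]
    have h2 : Even (ordz c (L χ) + ordz c (L χ)) := ⟨_, rfl⟩
    exact h2.neg_one_zpow
  have hW : ∀ m' : (G → ℂ) → ℕ, (∀ χ ∈ Irr G, (m' χ : ℂ) = mn χ H) →
      ∏ᶠ χ ∈ Irr G, w χ ^ m χ = ∏ᶠ χ ∈ Irr G, w χ ^ m' χ := by
    intro m' hm'
    refine finprod_mem_congr rfl fun χ hχ => ?_
    have h1 : m χ = m' χ := by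
      have h2 : ((m χ : ℕ) : ℂ) = (m' χ : ℕ) := by rw [hm χ hχ, hm' χ hχ]
      exact_mod_cast h2
    rw [h1]
  rw [← parity τ ρ w hdual H _ hW, finprod_irr (fun χ => w χ ^ m χ)]
  have h1 : meromorphicOrderAt LH c = ((∑ χ ∈ irrF G, (m χ : ℤ) * ordz c (L χ) : ℤ) : WithTop ℤ) := by
    have h2 : LH = fun s => ∏ χ ∈ irrF G, L χ s ^ m χ := by
      rw [hLH m hm]
      funext s
      rw [finprod_irr (fun χ => L χ s ^ m χ)]
    rw [h2, meromorphicOrderAt_fun_prod (f := fun χ s => L χ s ^ m χ)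
      (fun χ hχ => ((hL χ (mem_irrF.mp hχ)).1.fun_pow _))]
    push_cast
    refine Finset.sum_congr rfl fun χ hχ => ?_
    rw [fun_meromorphicOrderAt_pow (hL χ (mem_irrF.mp hχ)).1, ordz_eq (hL χ (mem_irrF.mp hχ)).2]
  have h2 : ∏ χ ∈ irrF G, w χ ^ m χ = (-1) ^ (∑ χ ∈ irrF G, (m χ : ℤ) * ordz c (L χ)) := by
    have h3 : ∀ s : Finset (G → ℂ), ∏ χ ∈ s, w χ ^ m χ = (-1 : ℂ) ^ (∑ χ ∈ s, (m χ : ℤ) * ordz c (L χ)) := by
      intro s
      induction s using Finset.induction with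
      | empty => simp
      | insert a s ha ih =>
        rw [Finset.prod_insert ha, Finset.sum_insert ha, zpow_add₀ (by norm_num), ih]
        congr 1
        change (((-1 : ℂ)) ^ ordz c (L a)) ^ m a = _
        rw [← zpow_natCast, ← zpow_mul, mul_comm]
    exact h3 _
  rw [h2, h1]
  constructor
  · rintro ⟨z, hz, hev⟩
    have h3 : (∑ χ ∈ irrF G, (m χ : ℤ) * ordz c (L χ)) = z := by exact_mod_cast hz
    rw [h3, ← zpow_natCast]
    exact (neg_zpow_even hev).symm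
  · intro h
    refine ⟨_, rfl, ?_⟩
    rw [← zpow_natCast] at h
    exact even_of_neg_zpow h.symm

/-- the value of a character at the inverse -/
lemma irr_inv {χ : G → ℂ} (hχ : χ ∈ Irr G) (g : G) : χ g⁻¹ = (starRingEnd ℂ) (χ g) := by
  have hpos : 0 < Nat.card G := Nat.card_pos
  have : NeZero (Nat.card G) := ⟨hpos.ne'⟩
  have hdvd : Nat.card G ∣ (((-1 : (ZMod (Nat.card G))ˣ) : ZMod (Nat.card G)).val + 1) := by
    rw [← ZMod.natCast_eq_zero_iff]
    push_cast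
    rw [ZMod.natCast_zmod_val]
    simp
  obtain ⟨t, ht⟩ := hdvd
  have hσ : ∀ z : ℂ, z ^ Nat.card G = 1 → (starRingAut (R := ℂ)) z =
      z ^ ((-1 : (ZMod (Nat.card G))ˣ) : ZMod (Nat.card G)).val := by
    intro z hz
    have h1 : z ^ (((-1 : (ZMod (Nat.card G))ˣ) : ZMod (Nat.card G)).val + 1) = 1 := by
      rw [ht, pow_mul, hz, one_pow]
    have h2 : ‖z‖ = 1 := Complex.norm_eq_one_of_pow_eq_one hz hpos.ne'
    have h3 : z⁻¹ = (starRingEnd ℂ) z := Complex.inv_eq_conj h2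
    rw [pow_succ] at h1
    rw [eq_comm, eq_inv_of_mul_eq_one_left h1]
    exact h3
  have h1 := Pool.Agent.Helper606_LC.irr_pow hpos hσ hχ (pow_card_eq_one' (x := g))
  have h2 : g ^ ((-1 : (ZMod (Nat.card G))ˣ) : ZMod (Nat.card G)).val = g⁻¹ := by
    rw [eq_inv_iff_mul_eq_one, ← pow_succ, ht, pow_mul, pow_card_eq_one', one_pow]
  rw [h2] at h1
  exact h1.symm

end Run7.h988.PY
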